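import Mathlib

/-!
# MP_d3cc9f_co: only finitely many groups outside the two known classes have `v(G) = 2|G|`

Definitions and the statements of the parts.

The graph: vertices `G ⊕ G ⧸ L` (`L` a subgroup of prime order), the cosets form a clique, `g` is
adjacent to `g u`, `g u⁻¹` for `u ∈ S` (`S` a small generating set of generic elements), and `g` is
adjacent to `g • t` for `t ∈ T`, `T` a small set of cosets.  In one family (dicyclic groups with a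
unique involution which are not 2-groups) a third orbit `G ⧸ M` is needed.
-/

set_option autoImplicit false

namespace H34.VM

open Set

/-- the least number of vertices of a graph whose automorphism group is isomorphic to `G` -/
noncomputable def v (G : Type) [Group G] : ℕ :=
  sInf {N : ℕ | ∃ X : SimpleGraph (Fin N), Nonempty ((X ≃g X) ≃* G)}

section defs

variable {G : Type} [Group G]

/-- the coset `L` -/
def b (L : Subgroup G) : G ⧸ L := ((1 : G) : G ⧸ L)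

/-- the number of cosets of `L` fixed by `g` -/
noncomputable def fix (L : Subgroup G) (g : G) : ℕ := {c : G ⧸ L | g • c = c}.ncard

/-- the label of `u`: the number of common neighbours of `1` and `u` in `G ⧸ L` -/
noncomputable def lab (L : Subgroup G) (T : Set (G ⧸ L)) (u : G) : ℕ :=
  {t : G ⧸ L | t ∈ T ∧ u⁻¹ • t ∈ T}.ncard

open Classical in
/-- `2` if `u ^ 2` acts trivially on the cosets, `1` otherwise -/
noncomputable def wt (L : Subgroup G) (u : G) : ℕ :=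
  if ∀ c : G ⧸ L, (u ^ 2) • c = c then 2 else 1

/-- the only `u`-arcs (`u ∈ S`) inside `T` are the planned ones -/
structure Config (L : Subgroup G) (S : Set G) (T : Set (G ⧸ L)) (o : G ⧸ L → G) : Prop where
  base : b L ∈ T
  leaf : ∀ u ∈ S, u⁻¹ • b L ∈ T
  e1 : ∀ u ∈ S, ∀ t ∈ T, u • t ∈ T → u • t ≠ b L → o (u • t) = u
  e2 : ∀ u ∈ S, ∀ t ∈ T, u • t ∈ T → t ≠ b L → o t = u
  e3 : ∀ u ∈ S, u • b L ∈ T → u • b L = u⁻¹ • b L

/-- a set of generic elements -/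
structure GoodSet (L : Subgroup G) (F : ℕ) (S : Set G) : Prop where
  notL : ∀ u ∈ S, u ∉ L
  fix1 : ∀ u ∈ S, fix L u ≤ F
  root : ∀ u ∈ S, {y : G | y ^ 2 * u⁻¹ ∈ L}.ncard ≤ F * Nat.card L
  pair : ∀ u ∈ S, ∀ w ∈ S, u ≠ w →
    u * w ∉ L ∧ u * w⁻¹ ∉ L ∧ fix L (u * w⁻¹) ≤ F ∧ fix L (u * w) ≤ F
  trip : ∀ u ∈ S, ∀ w ∈ S, ∀ x ∈ S, u * w * x⁻¹ ∉ L

end defs

/-! ### Rigidity -/

/-- R: pairs of permutations preserving the adjacency -/
def S_rigid : Prop :=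
  ∀ (G : Type) [Group G] [Finite G] (L : Subgroup G) (S : Set G) (T : Set (G ⧸ L))
    (o : G ⧸ L → G), Config L S T o → (1 : G) ∉ S → 3 ≤ S.ncard → InjOn (lab L T) S →
    ∀ (α : G ≃ G) (β : G ⧸ L ≃ G ⧸ L),
      (∀ g g' : G, (g⁻¹ * g' ∈ S ∨ g'⁻¹ * g ∈ S) ↔
        ((α g)⁻¹ * α g' ∈ S ∨ (α g')⁻¹ * α g ∈ S)) →
      (∀ (g : G) (c : G ⧸ L), g⁻¹ • c ∈ T ↔ (α g)⁻¹ • β c ∈ T) →
      (∀ g : G, β (g : G ⧸ L) = (α g : G ⧸ L)) ∧
      (∀ g : G, ∀ u ∈ S, α (g * u) = α g * u ∨ α (g * u) = α g * u⁻¹) ∧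
      (∀ g : G, ∀ u ∈ S, (u ^ 2 = 1 ∨ u ^ 2 ∉ L) → α (g * u) = α g * u)

/-- G2: the graph with two orbits -/
def S_graph2 : Prop :=
  ∀ (G : Type) [Group G] [Finite G] (L : Subgroup G) (S : Set G) (T : Set (G ⧸ L))
    (o : G ⧸ L → G), Config L S T o → (1 : G) ∉ S → 3 ≤ S.ncard → InjOn (lab L T) S →
    (∀ u ∈ S, u ^ 2 = 1 ∨ u ^ 2 ∉ L) → Subgroup.closure S = ⊤ →
    2 * S.ncard + T.ncard + 1 < Nat.card (G ⧸ L) →
    ∃ X : SimpleGraph (G ⊕ (G ⧸ L)), Nonempty ((X ≃g X) ≃* G)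

/-- G3: the graph with three orbits.  `x L` and `y M` are adjacent iff they meet, `g` and `w : G ⧸ M`
are adjacent iff `g⁻¹ • w` is neither `M` nor `s₀⁻¹ M`.  Degrees: `G` at most `2|S| + |T| + n/3`,
`G ⧸ L` between `n/2 - 1` and `n/2 + 1 + 2|T|`, `G ⧸ M` at least `n - |M|`. -/
def S_graph3 : Prop :=
  ∀ (G : Type) [Group G] [Finite G] (L M : Subgroup G) (S : Set G) (T : Set (G ⧸ L))
    (o : G ⧸ L → G) (s₀ : G), Config L S T o → (1 : G) ∉ S → 3 ≤ S.ncard → InjOn (lab L T) S →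
    s₀ ∈ S → (∀ u ∈ S, u ≠ s₀ → u ^ 2 = 1 ∨ u ^ 2 ∉ L) → Subgroup.closure S = ⊤ →
    Nat.card L = 2 → L ⊓ M = ⊥ → 3 ≤ Nat.card M → 4 * Nat.card M ≤ Nat.card G →
    s₀ ∉ M → s₀ ^ 2 ∉ M → (∀ l ∈ L, ∀ m ∈ M, m * l ≠ s₀) →
    24 * (2 * S.ncard + T.ncard + 3) < Nat.card G →
    ∃ X : SimpleGraph (G ⊕ (G ⧸ L) ⊕ (G ⧸ M)), Nonempty ((X ≃g X) ≃* G)

/-! ### Existence of the generic generators -/

/-- C1: few elements fix many cosets (Burnside) -/
def S_fixcount : Prop :=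
  ∀ (G : Type) [Group G] [Finite G] (L : Subgroup G) (F : ℕ),
    F * {x : G | F < fix L x}.ncard ≤ Nat.card G

/-- C2: few elements have many square roots -/
def S_rootcount : Prop :=
  ∀ (G : Type) [Group G] [Finite G] (L : Subgroup G) (F : ℕ),
    F * {x : G | F * Nat.card L < {y : G | y ^ 2 * x⁻¹ ∈ L}.ncard}.ncard ≤ Nat.card G

/-- C3: an element which does not fix all cosets fixes at most half of them -/
def S_fixhalf : Prop :=
  ∀ (G : Type) [Group G] [Finite G] (L : Subgroup G) (g : G), (Nat.card L).Prime →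
    (∃ c : G ⧸ L, g • c ≠ c) → 2 * fix L g ≤ Nat.card (G ⧸ L)

/-- I: one more generic element -/
def S_insert : Prop :=
  ∀ (G : Type) [Group G] [Finite G] (L : Subgroup G) (S A : Set G) (k : ℕ),
    GoodSet L (100 * (k + 1)) S → S.ncard ≤ k → Nat.card G ≤ 12 * A.ncard →
    5000 * (k + 1) ^ 2 * Nat.card L ≤ Nat.card G →
    ∃ x ∈ A, x ∉ S ∧ GoodSet L (100 * (k + 1)) (insert x S)

/-- SG: generic generators -/
def S_sigma : Prop :=
  ∀ (G : Type) [Group G] [Finite G] (L : Subgroup G) (A₀ A : Set G) (k : ℕ),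
    Nat.card G ≤ 12 * A₀.ncard → Nat.card G ≤ 12 * A.ncard →
    (∀ K : Subgroup G, A ⊆ K ∨ Nat.card G ≤ 12 * (A \ K).ncard) →
    (∀ a ∈ A₀, Subgroup.closure (insert a A) = ⊤) →
    Nat.card G < 2 ^ k → 5000 * (k + 2) ^ 2 * Nat.card L ≤ Nat.card G →
    ∃ s₀ ∈ A₀, ∃ S : Set G, s₀ ∈ S ∧ S ⊆ insert s₀ A ∧ Subgroup.closure S = ⊤ ∧
      GoodSet L (100 * (k + 2)) S ∧ S.ncard = k + 1

/-! ### Existence of the set of cosets -/

/-- T0: the star at the coset `L` -/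
def S_star : Prop :=
  ∀ (G : Type) [Group G] [Finite G] (L : Subgroup G) (S : Set G) (F : ℕ), GoodSet L F S →
    (∀ u ∈ S, u ^ 2 ∈ L → ∀ c : G ⧸ L, (u ^ 2) • c = c) →
    ∃ (T : Set (G ⧸ L)) (o : G ⧸ L → G), Config L S T o ∧ T.ncard ≤ S.ncard + 1 ∧
      ∀ u ∈ S, lab L T u = wt L u

/-- T1: one more pair of cosets for the label of `s` -/
def S_step : Prop :=
  ∀ (G : Type) [Group G] [Finite G] (L : Subgroup G) (S : Set G) (k : ℕ) (T : Set (G ⧸ L))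
    (o : G ⧸ L → G) (s : G), (Nat.card L).Prime → GoodSet L (100 * (k + 1)) S → S.ncard ≤ k →
    s ∈ S → Config L S T o → T.ncard ≤ 4 * (k + 1) ^ 2 →
    5000 * (k + 1) ^ 3 ≤ Nat.card (G ⧸ L) →
    ∃ (T' : Set (G ⧸ L)) (o' : G ⧸ L → G), Config L S T' o' ∧ T'.ncard ≤ T.ncard + 2 ∧
      (∀ u ∈ S, u ≠ s → lab L T' u = lab L T u) ∧ lab L T' s = lab L T s + wt L s

/-- T: the set of cosets -/
def S_T : Prop :=
  ∀ (G : Type) [Group G] [Finite G] (L : Subgroup G) (S : Set G) (k : ℕ),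
    (Nat.card L).Prime → GoodSet L (100 * (k + 1)) S → S.ncard = k → 1 ≤ k →
    (∀ u ∈ S, u ^ 2 ∈ L → ∀ c : G ⧸ L, (u ^ 2) • c = c) →
    5000 * (k + 1) ^ 3 ≤ Nat.card (G ⧸ L) →
    ∃ (T : Set (G ⧸ L)) (o : G ⧸ L → G), Config L S T o ∧ T.ncard ≤ 4 * (k + 1) ^ 2 ∧
      InjOn (lab L T) S

/-! ### Group theory -/

section
variable (G : Type) [Group G]

/-- the generalized quaternion groups -/
def IsGenQuaternion : Prop := ∃ k : ℕ, 3 ≤ k ∧ Nonempty (G ≃* QuaternionGroup (2 ^ (k - 2)))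

/-- first alternative: a subgroup of prime order with many good elements -/
def AltOne : Prop :=
  ∃ L : Subgroup G, (Nat.card L).Prime ∧ Nat.card L ^ 2 ≤ Nat.card G ∧
    ∃ A : Set G, (∀ u ∈ A, u ^ 2 = 1 ∨ u ^ 2 ∉ L) ∧ Subgroup.closure A = ⊤ ∧
      Nat.card G ≤ 12 * A.ncard ∧ ∀ K : Subgroup G, A ⊆ K ∨ Nat.card G ≤ 12 * (A \ K).ncard

/-- structure of the groups without a good involution -/
def Dic (z : G) (K : Subgroup G) : Prop :=
  z ≠ 1 ∧ z ^ 2 = 1 ∧ (∀ g : G, g * z = z * g) ∧ (∀ g : G, g ≠ 1 → g ^ 2 = 1 → g = z) ∧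
    K.index = 2 ∧ (∀ g : G, g ∉ K → g ^ 2 = z) ∧ (∀ x ∈ K, ∀ y ∈ K, x * y = y * x)

/-- second alternative -/
def AltTwo : Prop :=
  ∃ (z : G) (K M : Subgroup G), Dic G z K ∧ M ≤ K ∧ (Nat.card M).Prime ∧ Nat.card M ≠ 2

end

/-- U: the complement of the union of two proper subgroups -/
def S_union : Prop :=
  ∀ (G : Type) [Group G] [Finite G] (H K : Subgroup G), H ≠ ⊤ → K ≠ ⊤ →
    Nat.card G ≤ 4 * {g : G | g ∉ H ∧ g ∉ K}.ncard

/-- E1: odd order -/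
def S_odd : Prop :=
  ∀ (G : Type) [Group G] [Finite G], Odd (Nat.card G) → ¬ (Nat.card G).Prime →
    Nat.card G ≠ 1 → AltOne G

/-- E2: an involution which is not central -/
def S_noncentral : Prop :=
  ∀ (G : Type) [Group G] [Finite G] (h : G), 8 < Nat.card G → h ≠ 1 → h ^ 2 = 1 →
    (∃ g : G, g * h ≠ h * g) → AltOne G

/-- E3: a central involution whose square roots do not contain the complement of a proper
subgroup -/
def S_central : Prop :=
  ∀ (G : Type) [Group G] [Finite G] (h : G), 8 < Nat.card G → h ≠ 1 → h ^ 2 = 1 →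
    (∀ g : G, g * h = h * g) → (∀ K : Subgroup G, K ≠ ⊤ → ∃ g : G, g ∉ K ∧ g ^ 2 ≠ h) → AltOne G

/-- E4: all involutions are central, and the square roots of each contain the complement of a
proper subgroup -/
def S_dic : Prop :=
  ∀ (G : Type) [Group G] [Finite G], 8 < Nat.card G → Even (Nat.card G) →
    (∀ h : G, h ≠ 1 → h ^ 2 = 1 → ∀ g : G, g * h = h * g) →
    (∀ h : G, h ≠ 1 → h ^ 2 = 1 → ∃ K : Subgroup G, K ≠ ⊤ ∧ ∀ g : G, g ∉ K → g ^ 2 = h) →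
    ∃ (z : G) (K : Subgroup G), Dic G z K

/-- E5: the 2-groups among them -/
def S_quat : Prop :=
  ∀ (G : Type) [Group G] [Finite G] (z : G) (K : Subgroup G), Dic G z K → 8 ≤ Nat.card G →
    (∃ a : ℕ, Nat.card G = 2 ^ a) → IsGenQuaternion G

/-- E: the two alternatives -/
def S_groups : Prop :=
  ∀ (G : Type) [Group G] [Finite G], 8 < Nat.card G → ¬ (Nat.card G).Prime →
    ¬ IsGenQuaternion G → AltOne G ∨ AltTwo G

/-! ### Assembly -/

/-- V1 -/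
def S_one : Prop :=
  ∃ N : ℕ, ∀ (G : Type) [Group G] [Finite G], N < Nat.card G → AltOne G → v G < 2 * Nat.card G

/-- V2 -/
def S_two : Prop :=
  ∃ N : ℕ, ∀ (G : Type) [Group G] [Finite G], N < Nat.card G → AltTwo G → v G < 2 * Nat.card G

/-- the main theorem -/
def S_main : Prop :=
  ∃ N : ℕ, ∀ (G : Type) [Group G] [Finite G], v G = 2 * Nat.card G → ¬ (Nat.card G).Prime →
    ¬ IsGenQuaternion G → Nat.card G ≤ N

end H34.VM
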