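import Pool.Agent.H34.VM.Base

set_option autoImplicit false

namespace H34.VM

open Set

theorem t_groups (hE1 : S_odd) (hE2 : S_noncentral) (hE3 : S_central) (hE4 : S_dic)
    (hE5 : S_quat) : S_groups := by
  intro G _ _ hn hp hq
  rcases Nat.even_or_odd (Nat.card G) with heven | hodd
  · by_cases h1 : ∃ h : G, h ≠ 1 ∧ h ^ 2 = 1 ∧ ∃ g : G, g * h ≠ h * g
    · obtain ⟨h, h1, h2, h3⟩ := h1
      exact Or.inl (hE2 G h hn h1 h2 h3)
    · by_cases h2 : ∃ h : G, h ≠ 1 ∧ h ^ 2 = 1 ∧
          ∀ K : Subgroup G, K ≠ ⊤ → ∃ g : G, g ∉ K ∧ g ^ 2 ≠ h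
      · obtain ⟨h, h3, h4, h5⟩ := h2
        refine Or.inl (hE3 G h hn h3 h4 ?_ h5)
        intro g
        by_contra h6
        exact h1 ⟨h, h3, h4, g, h6⟩
      · push Not at h1 h2
        obtain ⟨z, K, hD⟩ := hE4 G hn heven h1 h2
        by_cases h3 : ∃ a : ℕ, Nat.card G = 2 ^ a
        · exact absurd (hE5 G z K hD (by omega) h3) hq
        · right
          -- an odd prime divisor
          have h4 : ∃ p : ℕ, p.Prime ∧ p ∣ Nat.card G ∧ p ≠ 2 := by
            by_contra h5
            push Not at h5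
            apply h3
            refine ⟨_, Nat.eq_prime_pow_of_unique_prime_dvd (p := 2) (by omega) ?_⟩
            intro d hd hdn
            exact h5 d hd hdn
          obtain ⟨p, hp, hpn, hp2⟩ := h4
          have hcK : Nat.card K * 2 = Nat.card G := by
            rw [← hD.2.2.2.2.1]; exact K.card_mul_index
          have hpK : p ∣ Nat.card K := by
            rw [← hcK] at hpn
            rcases (Nat.Prime.dvd_mul hp).1 hpn with h | h
            · exact h
            · exact absurd ((Nat.prime_dvd_prime_iff_eq hp Nat.prime_two).1 h) hp2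
          haveI : Fact p.Prime := ⟨hp⟩
          obtain ⟨x, hx⟩ := exists_prime_orderOf_dvd_card' (G := K) p hpK
          refine ⟨z, K, (Subgroup.zpowers (x : G)), hD, ?_, ?_, ?_⟩
          · rw [Subgroup.zpowers_le]; exact x.2
          · rw [Nat.card_zpowers, Subgroup.orderOf_coe, hx]; exact hp
          · rw [Nat.card_zpowers, Subgroup.orderOf_coe, hx]; exact hp2
  · exact Or.inl (hE1 G hodd hp (by omega))

theorem t_main (hE : S_groups) (h1 : S_one) (h2 : S_two) : S_main := by
  obtain ⟨N₁, h1⟩ := h1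
  obtain ⟨N₂, h2⟩ := h2
  refine ⟨max (max N₁ N₂) 8, ?_⟩
  intro G _ _ hv hp hq
  by_contra hN
  push Not at hN
  have hN1 : N₁ < Nat.card G := by omega
  have hN2 : N₂ < Nat.card G := by omega
  have hN8 : 8 < Nat.card G := by omega
  rcases hE G hN8 hp hq with h | h
  · have := h1 G hN1 h
    omega
  · have := h2 G hN2 h
    omega

end H34.VM
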