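import Pool.Agent.H34.VM.Base

set_option autoImplicit false

namespace H34.VM

open Set

lemma alpha_eq {G : Type} [Group G] (S : Set G) (α : G → G)
    (h : ∀ g : G, ∀ u ∈ S, α (g * u) = α g * u) (hS : Subgroup.closure S = ⊤) (x : G) :
    α x = α 1 * x := by
  have key : ∀ x : G, ∀ g : G, α (g * x) = α g * x := by
    intro x
    have hx : x ∈ Subgroup.closure S := by rw [hS]; trivial
    induction hx using Subgroup.closure_induction with
    | mem u hu => exact fun g => h g u hu
    | one => intro g; simp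
    | mul y z _ _ hy hz => intro g; rw [← mul_assoc, hz, hy, mul_assoc]
    | inv y _ hy =>
      intro g
      have := hy (g * y⁻¹)
      rw [inv_mul_cancel_right] at this
      rw [this]; group
  simpa using key x 1

/-- the neighbourhoods are preserved -/
lemma nb_map {V : Type} (X : SimpleGraph V) (f : X ≃g X) (w : V) :
    (X.neighborSet (f w)).ncard = (X.neighborSet w).ncard := by
  have : X.neighborSet (f w) = f '' X.neighborSet w := by
    ext z
    simp only [SimpleGraph.mem_neighborSet, mem_image]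
    constructor
    · intro h
      refine ⟨f.symm z, ?_, by simp⟩
      rw [← f.map_adj_iff]
      simpa using h
    · rintro ⟨y, hy, rfl⟩
      exact (f.map_adj_iff).2 hy
  rw [this, ncard_image_of_injective _ f.injective]

lemma sum_split {A B : Type} [Finite A] [Finite B] (σ : Equiv.Perm (A ⊕ B))
    (h : ∀ a : A, ∃ a' : A, σ (Sum.inl a) = Sum.inl a') :
    ∃ (α : Equiv.Perm A) (β : Equiv.Perm B), (∀ a, σ (Sum.inl a) = Sum.inl (α a)) ∧
      ∀ c, σ (Sum.inr c) = Sum.inr (β c) := by
  have := Equiv.Perm.mem_sumCongrHom_range_of_perm_mapsTo_inl (σ := σ) (by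
    rintro _ ⟨a, rfl⟩
    obtain ⟨a', ha⟩ := h a
    exact ⟨a', ha.symm⟩)
  obtain ⟨⟨α, β⟩, hαβ⟩ := this
  refine ⟨α, β, ?_, ?_⟩
  · intro a; rw [← hαβ]; rfl
  · intro a; rw [← hαβ]; rfl

section

variable {G : Type} [Group G]

def adj2 (L : Subgroup G) (S : Set G) (T : Set (G ⧸ L)) : G ⊕ (G ⧸ L) → G ⊕ (G ⧸ L) → Prop
  | Sum.inl g, Sum.inl g' => g⁻¹ * g' ∈ S ∨ g'⁻¹ * g ∈ S
  | Sum.inl g, Sum.inr c => g⁻¹ • c ∈ T
  | Sum.inr c, Sum.inl g => g⁻¹ • c ∈ T
  | Sum.inr c, Sum.inr c' => c ≠ c'

def X2 (L : Subgroup G) (S : Set G) (T : Set (G ⧸ L)) (h1 : (1 : G) ∉ S) :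
    SimpleGraph (G ⊕ (G ⧸ L)) where
  Adj := adj2 L S T
  symm := by
    constructor
    rintro (g | c) (g' | c') h
    · exact Or.symm h
    · exact h
    · exact h
    · exact Ne.symm h
  loopless := by
    constructor
    rintro (g | c) h
    · rcases h with h | h <;> simp [h1] at h
    · exact h rfl

def act2 (L : Subgroup G) (S : Set G) (T : Set (G ⧸ L)) (h1 : (1 : G) ∉ S) (a : G) :
    X2 L S T h1 ≃g X2 L S T h1 where
  toEquiv := Equiv.sumCongr (Equiv.mulLeft a) (MulAction.toPerm a)
  map_rel_iff' := by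
    rintro (g | c) (g' | c')
    · show ((a * g)⁻¹ * (a * g') ∈ S ∨ (a * g')⁻¹ * (a * g) ∈ S) ↔ (g⁻¹ * g' ∈ S ∨ g'⁻¹ * g ∈ S)
      have e1 : (a * g)⁻¹ * (a * g') = g⁻¹ * g' := by group
      have e2 : (a * g')⁻¹ * (a * g) = g'⁻¹ * g := by group
      rw [e1, e2]
    · show (a * g)⁻¹ • a • c' ∈ T ↔ g⁻¹ • c' ∈ T
      have e1 : (a * g)⁻¹ • a • c' = g⁻¹ • c' := by
        rw [smul_smul]; congr 1; group
      rw [e1]
    · show (a * g')⁻¹ • a • c ∈ T ↔ g'⁻¹ • c ∈ T
      have e1 : (a * g')⁻¹ • a • c = g'⁻¹ • c := by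
        rw [smul_smul]; congr 1; group
      rw [e1]
    · show a • c ≠ a • c' ↔ c ≠ c'
      simp

end

theorem t_graph2 (hR : S_rigid) : S_graph2 := by
  intro G _ _ L S T o hC h1 h3 hinj hgood hgen hdeg
  set X := X2 L S T h1 with hX
  refine ⟨X, ⟨?_⟩⟩
  let Φ : G →* (X ≃g X) :=
    { toFun := act2 L S T h1
      map_one' := by
        ext w
        rcases w with g | c
        · show Sum.inl (1 * g) = _
          rw [one_mul]; rfl
        · show Sum.inr ((1 : G) • c) = _
          rw [one_smul]; rfl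
      map_mul' := by
        intro x y
        ext w
        rcases w with g | c
        · show Sum.inl (x * y * g) = Sum.inl (x * (y * g))
          rw [mul_assoc]
        · show Sum.inr ((x * y) • c) = Sum.inr (x • y • c)
          rw [mul_smul] }
  refine (MulEquiv.ofBijective Φ ⟨?_, ?_⟩).symm
  · intro x y hxy
    have : (Φ x) (Sum.inl 1) = (Φ y) (Sum.inl 1) := by rw [hxy]
    have h2 : (Sum.inl (x * 1) : G ⊕ (G ⧸ L)) = Sum.inl (y * 1) := this
    simpa using h2
  · intro f
    -- degrees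
    have hl : ∀ g : G, (X.neighborSet (Sum.inl g)).ncard ≤ 2 * S.ncard + T.ncard := by
      intro g
      have hsub : X.neighborSet (Sum.inl g) ⊆
          (Sum.inl '' ((fun s => g * s) '' S) ∪ Sum.inl '' ((fun s => g * s⁻¹) '' S)) ∪
            Sum.inr '' ((fun t => g • t) '' T) := by
        rintro (g' | c) h
        · left
          have h' : g⁻¹ * g' ∈ S ∨ g'⁻¹ * g ∈ S := h
          rcases h' with h' | h'
          · left
            exact ⟨g', ⟨g⁻¹ * g', h', by simp⟩, rfl⟩
          · right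
            exact ⟨g', ⟨g'⁻¹ * g, h', by simp⟩, rfl⟩
        · right
          have h' : g⁻¹ • c ∈ T := h
          exact ⟨c, ⟨g⁻¹ • c, h', by simp⟩, rfl⟩
      refine (ncard_le_ncard hsub (toFinite _)).trans ?_
      refine (ncard_union_le _ _).trans ?_
      have e1 : (Sum.inl '' ((fun s => g * s) '' S) : Set (G ⊕ (G ⧸ L))).ncard ≤ S.ncard :=
        (ncard_image_le (toFinite _)).trans (ncard_image_le (toFinite _))
      have e2 : (Sum.inl '' ((fun s => g * s⁻¹) '' S) : Set (G ⊕ (G ⧸ L))).ncard ≤ S.ncard :=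
        (ncard_image_le (toFinite _)).trans (ncard_image_le (toFinite _))
      have e3 : (Sum.inr '' ((fun t => g • t) '' T) : Set (G ⊕ (G ⧸ L))).ncard ≤ T.ncard :=
        (ncard_image_le (toFinite _)).trans (ncard_image_le (toFinite _))
      have e4 := ncard_union_le (Sum.inl '' ((fun s => g * s) '' S) : Set (G ⊕ (G ⧸ L)))
        (Sum.inl '' ((fun s => g * s⁻¹) '' S))
      omega
    have hr : ∀ c : G ⧸ L, Nat.card (G ⧸ L) - 1 ≤ (X.neighborSet (Sum.inr c)).ncard := by
      intro c
      have hsub : (Sum.inr '' {c}ᶜ : Set (G ⊕ (G ⧸ L))) ⊆ X.neighborSet (Sum.inr c) := by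
        rintro _ ⟨c', hc', rfl⟩
        show c ≠ c'
        exact fun h => hc' h.symm
      refine le_trans ?_ (ncard_le_ncard hsub (toFinite _))
      rw [ncard_image_of_injective _ Sum.inr_injective, ncard_compl, ncard_singleton]
    have hinl : ∀ g : G, ∃ g' : G, f.toEquiv (Sum.inl g) = Sum.inl g' := by
      intro g
      rcases h : f.toEquiv (Sum.inl g) with g' | c
      · exact ⟨g', rfl⟩
      · exfalso
        have e1 := nb_map X f (Sum.inl g)
        have e2 : f (Sum.inl g) = Sum.inr c := h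
        rw [e2] at e1
        have := hl g
        have := hr c
        omega
    obtain ⟨α, β, hα, hβ⟩ := sum_split f.toEquiv hinl
    have hα' : ∀ g, f (Sum.inl g) = Sum.inl (α g) := hα
    have hβ' : ∀ g, f (Sum.inr g) = Sum.inr (β g) := hβ
    obtain ⟨r1, _, r3⟩ := hR G L S T o hC h1 h3 hinj α β (by
      intro g g'
      have := f.map_adj_iff (v := Sum.inl g) (w := Sum.inl g')
      rw [hα', hα'] at this
      exact this.symm) (by
      intro g c
      have := f.map_adj_iff (v := Sum.inl g) (w := Sum.inr c)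
      rw [hα', hβ'] at this
      exact this.symm)
    have hα1 := alpha_eq S α (fun g u hu => r3 g u hu (hgood u hu)) hgen
    refine ⟨α 1, ?_⟩
    ext w
    rcases w with g | c
    · show Sum.inl (α 1 * g) = f (Sum.inl g)
      rw [hα', ← hα1]
    · show Sum.inr (α 1 • c) = f (Sum.inr c)
      rw [hβ']
      congr 1
      induction c using QuotientGroup.induction_on with
      | H g =>
        rw [r1, hα1 g]
        rfl

end H34.VM
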