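import Pool.Agent.H34.VM.G2

set_option autoImplicit false

namespace H34.VM

open Set

section

variable {G : Type} [Group G]

def TM (M : Subgroup G) (s₀ : G) : Set (G ⧸ M) := {b M, s₀⁻¹ • b M}

def adj3 (L M : Subgroup G) (S : Set G) (T : Set (G ⧸ L)) (s₀ : G) :
    G ⊕ (G ⧸ L) ⊕ (G ⧸ M) → G ⊕ (G ⧸ L) ⊕ (G ⧸ M) → Prop
  | Sum.inl g, Sum.inl g' => g⁻¹ * g' ∈ S ∨ g'⁻¹ * g ∈ S
  | Sum.inl g, Sum.inr (Sum.inl c) => g⁻¹ • c ∈ T
  | Sum.inl g, Sum.inr (Sum.inr w) => g⁻¹ • w ∉ TM M s₀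
  | Sum.inr (Sum.inl c), Sum.inl g => g⁻¹ • c ∈ T
  | Sum.inr (Sum.inl c), Sum.inr (Sum.inl c') => c ≠ c'
  | Sum.inr (Sum.inl c), Sum.inr (Sum.inr w) => ∃ x : G, (x : G ⧸ L) = c ∧ (x : G ⧸ M) = w
  | Sum.inr (Sum.inr w), Sum.inl g => g⁻¹ • w ∉ TM M s₀
  | Sum.inr (Sum.inr w), Sum.inr (Sum.inl c) => ∃ x : G, (x : G ⧸ L) = c ∧ (x : G ⧸ M) = w
  | Sum.inr (Sum.inr _), Sum.inr (Sum.inr _) => False

def X3 (L M : Subgroup G) (S : Set G) (T : Set (G ⧸ L)) (s₀ : G) (h1 : (1 : G) ∉ S) :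
    SimpleGraph (G ⊕ (G ⧸ L) ⊕ (G ⧸ M)) where
  Adj := adj3 L M S T s₀
  symm := by
    constructor
    rintro (g | c | w) (g' | c' | w') h
    · exact Or.symm h
    · exact h
    · exact h
    · exact h
    · exact Ne.symm h
    · exact h
    · exact h
    · exact h
    · exact h
  loopless := by
    constructor
    rintro (g | c | w) h
    · rcases h with h | h <;> simp [h1] at h
    · exact h rfl
    · exact h

lemma cancel_smul {α : Type} [MulAction G α] (a g : G) (c : α) :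
    (a * g)⁻¹ • a • c = g⁻¹ • c := by
  rw [smul_smul]; congr 1; group

lemma meet_iff (L M : Subgroup G) (a : G) (c : G ⧸ L) (w : G ⧸ M) :
    (∃ x : G, (x : G ⧸ L) = a • c ∧ (x : G ⧸ M) = a • w) ↔
      ∃ x : G, (x : G ⧸ L) = c ∧ (x : G ⧸ M) = w := by
  constructor
  · rintro ⟨x, h1, h2⟩
    refine ⟨a⁻¹ * x, ?_, ?_⟩
    · rw [← inv_smul_eq_iff.2 h1]; rfl
    · rw [← inv_smul_eq_iff.2 h2]; rfl
  · rintro ⟨x, h1, h2⟩
    exact ⟨a * x, by rw [← h1]; rfl, by rw [← h2]; rfl⟩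

def act3 (L M : Subgroup G) (S : Set G) (T : Set (G ⧸ L)) (s₀ : G) (h1 : (1 : G) ∉ S) (a : G) :
    X3 L M S T s₀ h1 ≃g X3 L M S T s₀ h1 where
  toEquiv := Equiv.sumCongr (Equiv.mulLeft a)
    (Equiv.sumCongr (MulAction.toPerm a) (MulAction.toPerm a))
  map_rel_iff' := by
    rintro (g | c | w) (g' | c' | w')
    · show ((a * g)⁻¹ * (a * g') ∈ S ∨ (a * g')⁻¹ * (a * g) ∈ S) ↔ (g⁻¹ * g' ∈ S ∨ g'⁻¹ * g ∈ S)
      have e1 : (a * g)⁻¹ * (a * g') = g⁻¹ * g' := by group
      have e2 : (a * g')⁻¹ * (a * g) = g'⁻¹ * g := by group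
      rw [e1, e2]
    · show (a * g)⁻¹ • a • c' ∈ T ↔ g⁻¹ • c' ∈ T
      rw [cancel_smul]
    · show (a * g)⁻¹ • a • w' ∉ TM M s₀ ↔ g⁻¹ • w' ∉ TM M s₀
      rw [cancel_smul]
    · show (a * g')⁻¹ • a • c ∈ T ↔ g'⁻¹ • c ∈ T
      rw [cancel_smul]
    · show a • c ≠ a • c' ↔ c ≠ c'
      simp
    · exact meet_iff L M a c w'
    · show (a * g')⁻¹ • a • w ∉ TM M s₀ ↔ g'⁻¹ • w ∉ TM M s₀
      rw [cancel_smul]
    · exact meet_iff L M a c' w
    · exact Iff.rfl

/-- the elements `g` with `g⁻¹ • c ∈ T` -/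
lemma card_nbr [Finite G] (L : Subgroup G) (T : Set (G ⧸ L)) (c : G ⧸ L) :
    {g : G | g⁻¹ • c ∈ T}.ncard ≤ T.ncard * Nat.card L := by
  obtain ⟨x, rfl⟩ := QuotientGroup.mk_surjective c
  have hsub : {g : G | g⁻¹ • (x : G ⧸ L) ∈ T} ⊆
      (fun p : (G ⧸ L) × G => x * p.2 * (Quotient.out p.1)⁻¹) '' (T ×ˢ (L : Set G)) := by
    intro g hg
    refine ⟨(g⁻¹ • (x : G ⧸ L), x⁻¹ * g * Quotient.out (g⁻¹ • (x : G ⧸ L))), ⟨hg, ?_⟩, ?_⟩
    · show x⁻¹ * g * Quotient.out (g⁻¹ • (x : G ⧸ L)) ∈ L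
      have h1 : ((Quotient.out (g⁻¹ • (x : G ⧸ L)) : G) : G ⧸ L) = ((g⁻¹ * x : G) : G ⧸ L) := by
        rw [QuotientGroup.out_eq']; rfl
      have h2 := QuotientGroup.eq.1 h1.symm
      have e : x⁻¹ * g * Quotient.out (g⁻¹ • (x : G ⧸ L)) =
        (g⁻¹ * x)⁻¹ * Quotient.out (g⁻¹ • (x : G ⧸ L)) := by group
      rw [e]; exact h2
    · simp only
      group
  refine (ncard_le_ncard hsub (toFinite _)).trans ((ncard_image_le (toFinite _)).trans ?_)
  rw [ncard_prod]
  exact le_of_eq (by rw [← Nat.card_coe_set_eq (L : Set G)]; rfl)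

lemma card_meet_le [Finite G] (L M : Subgroup G) (c : G ⧸ L) :
    {w : G ⧸ M | ∃ x : G, (x : G ⧸ L) = c ∧ (x : G ⧸ M) = w}.ncard ≤ Nat.card L := by
  obtain ⟨y, rfl⟩ := QuotientGroup.mk_surjective c
  have hsub : {w : G ⧸ M | ∃ x : G, (x : G ⧸ L) = (y : G ⧸ L) ∧ (x : G ⧸ M) = w} ⊆
      (fun l : G => ((y * l : G) : G ⧸ M)) '' (L : Set G) := by
    rintro w ⟨x, hx, rfl⟩
    refine ⟨y⁻¹ * x, QuotientGroup.eq.1 hx.symm, ?_⟩
    simp
  refine (ncard_le_ncard hsub (toFinite _)).trans ((ncard_image_le (toFinite _)).trans ?_)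
  exact le_of_eq (by rw [← Nat.card_coe_set_eq (L : Set G)]; rfl)

lemma card_meet_ge [Finite G] (L M : Subgroup G) (hLM : L ⊓ M = ⊥) (w : G ⧸ M) :
    Nat.card M ≤ {c : G ⧸ L | ∃ x : G, (x : G ⧸ L) = c ∧ (x : G ⧸ M) = w}.ncard := by
  obtain ⟨y, rfl⟩ := QuotientGroup.mk_surjective w
  have hsub : (fun l : G => ((y * l : G) : G ⧸ L)) '' (M : Set G) ⊆
      {c : G ⧸ L | ∃ x : G, (x : G ⧸ L) = c ∧ (x : G ⧸ M) = (y : G ⧸ M)} := by
    rintro w ⟨m, hm, rfl⟩
    refine ⟨y * m, rfl, ?_⟩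
    rw [eq_comm, QuotientGroup.eq]
    simpa using hm
  refine le_trans ?_ (ncard_le_ncard hsub (toFinite _))
  rw [InjOn.ncard_image]
  · exact le_of_eq (by rw [← Nat.card_coe_set_eq (M : Set G)]; rfl)
  · intro m hm m' hm' h
    have h' : ((y * m : G) : G ⧸ L) = ((y * m' : G) : G ⧸ L) := h
    rw [QuotientGroup.eq] at h'
    have e : (y * m)⁻¹ * (y * m') = m⁻¹ * m' := by group
    rw [e] at h'
    have h2 : m⁻¹ * m' ∈ L ⊓ M := ⟨h', M.mul_mem (M.inv_mem hm) hm'⟩
    rw [hLM, Subgroup.mem_bot] at h2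
    exact (inv_mul_eq_one.1 h2)

end

theorem t_graph3 (hR : S_rigid) : S_graph3 := by
  intro G _ _ L M S T o s₀ hC h1 h3 hinj hs₀ hgood hgen hL hLM hM3 hM4 hsM hsM2 hsML hsize
  set X := X3 L M S T s₀ h1 with hX
  refine ⟨X, ⟨?_⟩⟩
  let Φ : G →* (X ≃g X) :=
    { toFun := act3 L M S T s₀ h1
      map_one' := by
        ext w
        rcases w with g | c | w
        · show Sum.inl (1 * g) = _
          rw [one_mul]; rfl
        · show Sum.inr (Sum.inl ((1 : G) • c)) = _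
          rw [one_smul]; rfl
        · show Sum.inr (Sum.inr ((1 : G) • w)) = _
          rw [one_smul]; rfl
      map_mul' := by
        intro x y
        ext w
        rcases w with g | c | w
        · show Sum.inl (x * y * g) = Sum.inl (x * (y * g))
          rw [mul_assoc]
        · show Sum.inr (Sum.inl ((x * y) • c)) = Sum.inr (Sum.inl (x • y • c))
          rw [mul_smul]
        · show Sum.inr (Sum.inr ((x * y) • w)) = Sum.inr (Sum.inr (x • y • w))
          rw [mul_smul] }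
  have hcL : Nat.card (G ⧸ L) * 2 = Nat.card G := by
    rw [← hL]; exact (Subgroup.card_eq_card_quotient_mul_card_subgroup L).symm
  have hcM : Nat.card (G ⧸ M) * Nat.card M = Nat.card G :=
    (Subgroup.card_eq_card_quotient_mul_card_subgroup M).symm
  have hcM3 : Nat.card (G ⧸ M) * 3 ≤ Nat.card G := by
    rw [← hcM]; exact Nat.mul_le_mul_left _ hM3
  refine (MulEquiv.ofBijective Φ ⟨?_, ?_⟩).symm
  · intro x y hxy
    have : (Φ x) (Sum.inl 1) = (Φ y) (Sum.inl 1) := by rw [hxy]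
    have h2 : (Sum.inl (x * 1) : G ⊕ (G ⧸ L) ⊕ (G ⧸ M)) = Sum.inl (y * 1) := this
    simpa using h2
  · intro f
    -- degrees
    have hl : ∀ g : G, (X.neighborSet (Sum.inl g)).ncard ≤
        2 * S.ncard + T.ncard + Nat.card (G ⧸ M) := by
      intro g
      have hsub : X.neighborSet (Sum.inl g) ⊆
          ((Sum.inl '' ((fun s => g * s) '' S) ∪ Sum.inl '' ((fun s => g * s⁻¹) '' S)) ∪
            Sum.inr '' (Sum.inl '' ((fun t => g • t) '' T))) ∪ Sum.inr '' (Sum.inr '' univ) := by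
        rintro (g' | c | w) h
        · left; left
          have h' : g⁻¹ * g' ∈ S ∨ g'⁻¹ * g ∈ S := h
          rcases h' with h' | h'
          · left
            exact ⟨g', ⟨g⁻¹ * g', h', by simp⟩, rfl⟩
          · right
            exact ⟨g', ⟨g'⁻¹ * g, h', by simp⟩, rfl⟩
        · left; right
          have h' : g⁻¹ • c ∈ T := h
          exact ⟨_, ⟨c, ⟨g⁻¹ • c, h', by simp⟩, rfl⟩, rfl⟩
        · right
          exact ⟨_, ⟨w, trivial, rfl⟩, rfl⟩
      refine (ncard_le_ncard hsub (toFinite _)).trans ?_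
      refine (ncard_union_le _ _).trans ?_
      have e1 : (Sum.inl '' ((fun s => g * s) '' S) : Set (G ⊕ (G ⧸ L) ⊕ (G ⧸ M))).ncard ≤
        S.ncard := (ncard_image_le (toFinite _)).trans (ncard_image_le (toFinite _))
      have e2 : (Sum.inl '' ((fun s => g * s⁻¹) '' S) : Set (G ⊕ (G ⧸ L) ⊕ (G ⧸ M))).ncard ≤
        S.ncard := (ncard_image_le (toFinite _)).trans (ncard_image_le (toFinite _))
      have e3 : (Sum.inr '' (Sum.inl '' ((fun t => g • t) '' T)) :
          Set (G ⊕ (G ⧸ L) ⊕ (G ⧸ M))).ncard ≤ T.ncard :=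
        (ncard_image_le (toFinite _)).trans ((ncard_image_le (toFinite _)).trans
          (ncard_image_le (toFinite _)))
      have e4 := ncard_union_le (Sum.inl '' ((fun s => g * s) '' S) :
        Set (G ⊕ (G ⧸ L) ⊕ (G ⧸ M))) (Sum.inl '' ((fun s => g * s⁻¹) '' S))
      have e5 := ncard_union_le (Sum.inl '' ((fun s => g * s) '' S) ∪
        Sum.inl '' ((fun s => g * s⁻¹) '' S) : Set (G ⊕ (G ⧸ L) ⊕ (G ⧸ M)))
        (Sum.inr '' (Sum.inl '' ((fun t => g • t) '' T)))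
      have e6 : (Sum.inr '' (Sum.inr '' univ) : Set (G ⊕ (G ⧸ L) ⊕ (G ⧸ M))).ncard ≤
          Nat.card (G ⧸ M) := by
        refine (ncard_image_le (toFinite _)).trans ((ncard_image_le (toFinite _)).trans ?_)
        rw [ncard_univ]
      omega
    have hr1 : ∀ c : G ⧸ L, Nat.card (G ⧸ L) - 1 ≤
        (X.neighborSet (Sum.inr (Sum.inl c))).ncard := by
      intro c
      have hsub : (Sum.inr '' (Sum.inl '' {c}ᶜ) : Set (G ⊕ (G ⧸ L) ⊕ (G ⧸ M))) ⊆
          X.neighborSet (Sum.inr (Sum.inl c)) := by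
        rintro _ ⟨_, ⟨c', hc', rfl⟩, rfl⟩
        show c ≠ c'
        exact fun h => hc' h.symm
      refine le_trans ?_ (ncard_le_ncard hsub (toFinite _))
      rw [ncard_image_of_injective _ Sum.inr_injective, ncard_image_of_injective _ Sum.inl_injective,
        ncard_compl, ncard_singleton]
    have hr2 : ∀ c : G ⧸ L, (X.neighborSet (Sum.inr (Sum.inl c))).ncard ≤
        Nat.card (G ⧸ L) + 2 * T.ncard + 2 := by
      intro c
      have hsub : X.neighborSet (Sum.inr (Sum.inl c)) ⊆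
          (Sum.inl '' {g : G | g⁻¹ • c ∈ T} ∪ Sum.inr '' (Sum.inl '' univ)) ∪
            Sum.inr '' (Sum.inr '' {w : G ⧸ M | ∃ x : G, (x : G ⧸ L) = c ∧ (x : G ⧸ M) = w}) := by
        rintro (g' | c' | w) h
        · left; left
          exact ⟨g', h, rfl⟩
        · left; right
          exact ⟨_, ⟨c', trivial, rfl⟩, rfl⟩
        · right
          exact ⟨_, ⟨w, h, rfl⟩, rfl⟩
      refine (ncard_le_ncard hsub (toFinite _)).trans ?_
      refine (ncard_union_le _ _).trans ?_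
      have e1 : (Sum.inl '' {g : G | g⁻¹ • c ∈ T} : Set (G ⊕ (G ⧸ L) ⊕ (G ⧸ M))).ncard ≤
          T.ncard * 2 := by
        refine (ncard_image_le (toFinite _)).trans ?_
        rw [← hL]; exact card_nbr L T c
      have e2 : (Sum.inr '' (Sum.inl '' univ) : Set (G ⊕ (G ⧸ L) ⊕ (G ⧸ M))).ncard ≤
          Nat.card (G ⧸ L) := by
        refine (ncard_image_le (toFinite _)).trans ((ncard_image_le (toFinite _)).trans ?_)
        rw [ncard_univ]
      have e3 : (Sum.inr '' (Sum.inr '' {w : G ⧸ M | ∃ x : G, (x : G ⧸ L) = c ∧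
          (x : G ⧸ M) = w}) : Set (G ⊕ (G ⧸ L) ⊕ (G ⧸ M))).ncard ≤ 2 := by
        refine (ncard_image_le (toFinite _)).trans ((ncard_image_le (toFinite _)).trans ?_)
        rw [← hL]; exact card_meet_le L M c
      have e4 := ncard_union_le (Sum.inl '' {g : G | g⁻¹ • c ∈ T} :
        Set (G ⊕ (G ⧸ L) ⊕ (G ⧸ M))) (Sum.inr '' (Sum.inl '' univ))
      omega
    have hm : ∀ w : G ⧸ M, Nat.card G ≤
        (X.neighborSet (Sum.inr (Sum.inr w))).ncard + Nat.card M := by
      intro w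
      have hsub : (Sum.inl '' {g : G | g⁻¹ • w ∈ TM M s₀}ᶜ ∪
          Sum.inr '' (Sum.inl '' {c : G ⧸ L | ∃ x : G, (x : G ⧸ L) = c ∧ (x : G ⧸ M) = w}) :
          Set (G ⊕ (G ⧸ L) ⊕ (G ⧸ M))) ⊆ X.neighborSet (Sum.inr (Sum.inr w)) := by
        rintro _ (⟨g, hg, rfl⟩ | ⟨_, ⟨c, hc, rfl⟩, rfl⟩)
        · exact hg
        · exact hc
      have e0 := ncard_le_ncard hsub (toFinite _)
      rw [ncard_union_eq] at e0
      · rw [ncard_image_of_injective _ Sum.inl_injective,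
          ncard_image_of_injective _ Sum.inr_injective,
          ncard_image_of_injective _ Sum.inl_injective] at e0
        have e1 := card_meet_ge L M hLM w
        have e2 := ncard_add_ncard_compl {g : G | g⁻¹ • w ∈ TM M s₀}
        have e3 := card_nbr M (TM M s₀) w
        have e4 : (TM M s₀).ncard ≤ 2 := by
          unfold TM
          refine (ncard_insert_le _ _).trans ?_
          rw [ncard_singleton]
        have e5 : (TM M s₀).ncard * Nat.card M ≤ 2 * Nat.card M := Nat.mul_le_mul_right _ e4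
        omega
      · rw [Set.disjoint_left]
        rintro _ ⟨g, _, rfl⟩ ⟨_, _, h⟩
        cases h
    have hinl : ∀ g : G, ∃ g' : G, f.toEquiv (Sum.inl g) = Sum.inl g' := by
      intro g
      rcases h : f.toEquiv (Sum.inl g) with g' | c | w
      · exact ⟨g', rfl⟩
      · exfalso
        have e1 := nb_map X f (Sum.inl g)
        have e2 : f (Sum.inl g) = Sum.inr (Sum.inl c) := h
        rw [e2] at e1
        have := hl g
        have := hr1 c
        omega
      · exfalso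
        have e1 := nb_map X f (Sum.inl g)
        have e2 : f (Sum.inl g) = Sum.inr (Sum.inr w) := h
        rw [e2] at e1
        have := hl g
        have := hm w
        omega
    obtain ⟨α, γ, hα, hγ⟩ := sum_split f.toEquiv hinl
    have hα' : ∀ g, f (Sum.inl g) = Sum.inl (α g) := hα
    have hγ' : ∀ g, f (Sum.inr g) = Sum.inr (γ g) := hγ
    have hinl2 : ∀ c : G ⧸ L, ∃ c' : G ⧸ L, γ (Sum.inl c) = Sum.inl c' := by
      intro c
      rcases h : γ (Sum.inl c) with c' | w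
      · exact ⟨c', rfl⟩
      · exfalso
        have e1 := nb_map X f (Sum.inr (Sum.inl c))
        rw [hγ', h] at e1
        have := hr2 c
        have := hm w
        omega
    obtain ⟨β, δ, hβ, hδ⟩ := sum_split γ hinl2
    have hβ' : ∀ c, f (Sum.inr (Sum.inl c)) = Sum.inr (Sum.inl (β c)) := by
      intro c; rw [hγ', hβ]
    have hδ' : ∀ w, f (Sum.inr (Sum.inr w)) = Sum.inr (Sum.inr (δ w)) := by
      intro c; rw [hγ', hδ]
    have hTM : ∀ (g : G) (w : G ⧸ M), g⁻¹ • w ∈ TM M s₀ ↔ (α g)⁻¹ • δ w ∈ TM M s₀ := by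
      intro g w
      have := f.map_adj_iff (v := Sum.inl g) (w := Sum.inr (Sum.inr w))
      rw [hα', hδ'] at this
      have h2 : ((α g)⁻¹ • δ w ∉ TM M s₀) ↔ (g⁻¹ • w ∉ TM M s₀) := this
      exact (not_iff_not.1 h2).symm
    obtain ⟨r1, r2, r3⟩ := hR G L S T o hC h1 h3 hinj α β (by
      intro g g'
      have := f.map_adj_iff (v := Sum.inl g) (w := Sum.inl g')
      rw [hα', hα'] at this
      exact this.symm) (by
      intro g c
      have := f.map_adj_iff (v := Sum.inl g) (w := Sum.inr (Sum.inl c))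
      rw [hα', hβ'] at this
      exact this.symm)
    -- the own coset of `M`
    have own : ∀ g : G, δ (g : G ⧸ M) = (α g : G ⧸ M) := by
      intro g
      have k1 : (α g)⁻¹ • δ (g : G ⧸ M) ∈ TM M s₀ := by
        rw [← hTM]
        left
        show ((g⁻¹ * g : G) : G ⧸ M) = b M
        rw [inv_mul_cancel]; rfl
      have k2 : ∃ x : G, (x : G ⧸ L) = (α g : G ⧸ L) ∧ (x : G ⧸ M) = δ (g : G ⧸ M) := by
        have := f.map_adj_iff (v := Sum.inr (Sum.inl (g : G ⧸ L)))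
          (w := Sum.inr (Sum.inr (g : G ⧸ M)))
        rw [hβ', hδ', r1] at this
        exact this.2 ⟨g, rfl, rfl⟩
      rcases k1 with k1 | k1
      · rw [inv_smul_eq_iff] at k1
        rw [k1]
        show ((α g * 1 : G) : G ⧸ M) = _
        rw [mul_one]
      · exfalso
        have k1 : (α g)⁻¹ • δ (g : G ⧸ M) = s₀⁻¹ • b M := k1
        rw [inv_smul_eq_iff] at k1
        obtain ⟨x, hx, hxw⟩ := k2
        rw [k1] at hxw
        have hxw' : (x : G ⧸ M) = ((α g * (s₀⁻¹ * 1) : G) : G ⧸ M) := hxw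
        have hx1 := QuotientGroup.eq.1 hx
        have hx2 := QuotientGroup.eq.1 hxw'
        apply hsML (x⁻¹ * α g)⁻¹⁻¹ (by simpa using hx1) (x⁻¹ * (α g * (s₀⁻¹ * 1)))⁻¹ (M.inv_mem hx2)
        group
    have r0 : ∀ g : G, α (g * s₀) = α g * s₀ := by
      intro g
      rcases r2 g s₀ hs₀ with h | h
      · exact h
      · exfalso
        have k1 : (α (g * s₀))⁻¹ • δ (g : G ⧸ M) ∈ TM M s₀ := by
          rw [← hTM]
          right
          show (((g * s₀)⁻¹ * g : G) : G ⧸ M) = ((s₀⁻¹ * 1 : G) : G ⧸ M)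
          congr 1; group
        rw [own, h] at k1
        have e : (α g * s₀⁻¹)⁻¹ • (α g : G ⧸ M) = (s₀ : G ⧸ M) := by
          show (((α g * s₀⁻¹)⁻¹ * α g : G) : G ⧸ M) = _
          congr 1; group
        rw [e] at k1
        rcases k1 with k1 | k1
        · have k1 : (s₀ : G ⧸ M) = ((1 : G) : G ⧸ M) := k1
          have := QuotientGroup.eq.1 k1
          exact hsM (by simpa using this)
        · have k1 : (s₀ : G ⧸ M) = ((s₀⁻¹ * 1 : G) : G ⧸ M) := k1
          have := QuotientGroup.eq.1 k1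
          apply hsM2
          have h5 := M.inv_mem this
          have e : (s₀⁻¹ * (s₀⁻¹ * 1))⁻¹ = s₀ ^ 2 := by simp [pow_two]
          rwa [e] at h5
    have hα1 := alpha_eq S α (fun g u hu => by
      by_cases hus : u = s₀
      · rw [hus]; exact r0 g
      · exact r3 g u hu (hgood u hu hus)) hgen
    refine ⟨α 1, ?_⟩
    ext w
    rcases w with g | c | w
    · show Sum.inl (α 1 * g) = f (Sum.inl g)
      rw [hα', ← hα1]
    · show Sum.inr (Sum.inl (α 1 • c)) = f (Sum.inr (Sum.inl c))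
      rw [hβ']
      congr 2
      induction c using QuotientGroup.induction_on with
      | H g =>
        rw [r1, hα1 g]
        rfl
    · show Sum.inr (Sum.inr (α 1 • w)) = f (Sum.inr (Sum.inr w))
      rw [hδ']
      congr 2
      induction w using QuotientGroup.induction_on with
      | H g =>
        rw [own, hα1 g]
        rfl

end H34.VM
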