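import Pool.Agent.H34.VM.Base

set_option autoImplicit false

namespace H34.VM

open Set

lemma smul_b {G : Type} [Group G] (L : Subgroup G) (g : G) : g • b L = (g : G ⧸ L) := by
  simp [b]

lemma smul_b_eq_iff {G : Type} [Group G] (L : Subgroup G) (g : G) : g • b L = b L ↔ g ∈ L := by
  rw [smul_b, b, eq_comm, QuotientGroup.eq]
  simp

lemma lab_inv {G : Type} [Group G] [Finite G] (L : Subgroup G) (T : Set (G ⧸ L)) (w : G) :
    lab L T w⁻¹ = lab L T w := by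
  unfold lab
  have : {t : G ⧸ L | t ∈ T ∧ w⁻¹⁻¹ • t ∈ T} =
      (fun t => w⁻¹ • t) '' {t : G ⧸ L | t ∈ T ∧ w⁻¹ • t ∈ T} := by
    ext t
    simp only [mem_ofPred_eq, mem_image, inv_inv]
    constructor
    · rintro ⟨h1, h2⟩
      exact ⟨w • t, ⟨h2, by simpa using h1⟩, by simp⟩
    · rintro ⟨s, ⟨h1, h2⟩, rfl⟩
      exact ⟨h2, by simpa using h1⟩
  rw [this, ncard_image_of_injective _ (MulAction.injective w⁻¹)]

theorem rigid_core {G : Type} [Group G] [Finite G] (L : Subgroup G) (S : Set G) (T : Set (G ⧸ L))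
    (o : G ⧸ L → G) (hC : Config L S T o) (h3 : 3 ≤ S.ncard) (hinj : InjOn (lab L T) S)
    (α : G ≃ G) (β : G ⧸ L ≃ G ⧸ L)
    (hS : ∀ g g' : G, (g⁻¹ * g' ∈ S ∨ g'⁻¹ * g ∈ S) ↔
        ((α g)⁻¹ * α g' ∈ S ∨ (α g')⁻¹ * α g ∈ S))
    (hT : ∀ (g : G) (c : G ⧸ L), g⁻¹ • c ∈ T ↔ (α g)⁻¹ • β c ∈ T) (h1 : α 1 = 1) :
    β (b L) = b L ∧ (∀ u ∈ S, α u = u ∨ α u = u⁻¹) ∧
      ∀ u ∈ S, (u ^ 2 = 1 ∨ u ^ 2 ∉ L) → α u = u := by
  have hS1 : ∀ s : G, (s ∈ S ∨ s⁻¹ ∈ S) ↔ (α s ∈ S ∨ (α s)⁻¹ ∈ S) := by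
    intro s
    have := hS 1 s
    simpa [h1] using this
  have hT1 : ∀ c, c ∈ T ↔ β c ∈ T := by
    intro c
    have := hT 1 c
    simpa [h1] using this
  have hlab : ∀ u, lab L T (α u) = lab L T u := by
    intro u
    unfold lab
    have : {t : G ⧸ L | t ∈ T ∧ (α u)⁻¹ • t ∈ T} = β '' {t : G ⧸ L | t ∈ T ∧ u⁻¹ • t ∈ T} := by
      ext t
      simp only [mem_ofPred_eq, mem_image]
      constructor
      · rintro ⟨h2, h3⟩
        refine ⟨β.symm t, ⟨?_, ?_⟩, by simp⟩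
        · rw [hT1]; simpa using h2
        · rw [hT]; simpa using h3
      · rintro ⟨s, ⟨h2, h3⟩, rfl⟩
        exact ⟨(hT1 s).1 h2, (hT u s).1 h3⟩
    rw [this, ncard_image_of_injective _ β.injective]
  have hd : ∀ u ∈ S, α u = u ∨ α u = u⁻¹ := by
    intro u hu
    rcases (hS1 u).1 (Or.inl hu) with h | h
    · left
      exact hinj h hu (hlab u)
    · right
      have h2 : (α u)⁻¹ = u := hinj h hu (by rw [lab_inv, hlab])
      rw [← h2, inv_inv, h2]
  -- the degree of a coset in the neighbourhood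
  set e : G ⧸ L → ℕ := fun t => {s : G | (s ∈ S ∨ s⁻¹ ∈ S) ∧ s⁻¹ • t ∈ T}.ncard with he
  have heβ : ∀ t, e (β t) = e t := by
    intro t
    simp only [he]
    have : {s : G | (s ∈ S ∨ s⁻¹ ∈ S) ∧ s⁻¹ • β t ∈ T} =
        α '' {s : G | (s ∈ S ∨ s⁻¹ ∈ S) ∧ s⁻¹ • t ∈ T} := by
      ext s
      simp only [mem_ofPred_eq, mem_image]
      constructor
      · rintro ⟨h2, h3⟩
        refine ⟨α.symm s, ⟨?_, ?_⟩, by simp⟩
        · rw [hS1]; simpa using h2
        · rw [hT]; simpa using h3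
      · rintro ⟨r, ⟨h2, h3⟩, rfl⟩
        exact ⟨(hS1 r).1 h2, (hT r t).1 h3⟩
    rw [this, ncard_image_of_injective _ α.injective]
  have heb : 3 ≤ e (b L) := by
    refine h3.trans (ncard_le_ncard ?_ (toFinite _))
    intro u hu
    exact ⟨Or.inl hu, hC.leaf u hu⟩
  have het : ∀ t ∈ T, t ≠ b L → e t ≤ 2 := by
    intro t ht htb
    have hsub : {s : G | (s ∈ S ∨ s⁻¹ ∈ S) ∧ s⁻¹ • t ∈ T} ⊆ {o t, (o t)⁻¹} := by
      rintro s ⟨h2, h3⟩
      rcases h2 with h2 | h2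
      · left
        have := hC.e1 s h2 (s⁻¹ • t) h3 (by simpa using ht) (by simpa using htb)
        simpa using this.symm
      · right
        have := hC.e2 s⁻¹ h2 t ht h3 htb
        simp [this]
    refine (ncard_le_ncard hsub (toFinite _)).trans ((ncard_insert_le _ _).trans ?_)
    rw [ncard_singleton]
  have hβ : β (b L) = b L := by
    by_contra hne
    have h2 := het _ ((hT1 _).1 hC.base) hne
    rw [heβ] at h2
    omega
  refine ⟨hβ, hd, ?_⟩
  intro u hu hgood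
  rcases hd u hu with h | h
  · exact h
  · have h2 : u • b L ∈ T := by
      have := (hT u (b L)).1 (hC.leaf u hu)
      rwa [h, hβ, inv_inv] at this
    have h4 := hC.e3 u hu h2
    have h5 : u ^ 2 ∈ L := by
      rw [← smul_b_eq_iff, pow_two, mul_smul, h4]
      simp
    have h6 : u ^ 2 = 1 := by
      rcases hgood with h | h
      · exact h
      · exact absurd h5 h
    rw [h]
    rw [inv_eq_iff_mul_eq_one, ← pow_two, h6]

theorem t_rigid : S_rigid := by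
  intro G _ _ L S T o hC _ h3 hinj α β hS hT
  have key : ∀ g : G, β (g • b L) = α g • b L ∧
      (∀ u ∈ S, (α g)⁻¹ * α (g * u) = u ∨ (α g)⁻¹ * α (g * u) = u⁻¹) ∧
      ∀ u ∈ S, (u ^ 2 = 1 ∨ u ^ 2 ∉ L) → (α g)⁻¹ * α (g * u) = u := by
    intro g
    let α' : G ≃ G := (Equiv.mulLeft g).trans (α.trans (Equiv.mulLeft (α g)⁻¹))
    let β' : G ⧸ L ≃ G ⧸ L := (MulAction.toPerm g).trans (β.trans (MulAction.toPerm (α g)⁻¹))
    have hα' : ∀ x, α' x = (α g)⁻¹ * α (g * x) := fun x => rfl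
    have hβ' : ∀ c, β' c = (α g)⁻¹ • β (g • c) := fun x => rfl
    have h := rigid_core L S T o hC h3 hinj α' β' ?_ ?_ ?_
    · obtain ⟨h1, h2, h3⟩ := h
      refine ⟨?_, ?_, ?_⟩
      · rw [hβ', inv_smul_eq_iff] at h1
        exact h1
      · intro u hu
        simpa [hα'] using h2 u hu
      · intro u hu hg
        simpa [hα'] using h3 u hu hg
    · intro x y
      rw [hα', hα']
      have := hS (g * x) (g * y)
      have e1 : ((α g)⁻¹ * α (g * x))⁻¹ * ((α g)⁻¹ * α (g * y)) = (α (g * x))⁻¹ * α (g * y) := by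
        group
      have e2 : ((α g)⁻¹ * α (g * y))⁻¹ * ((α g)⁻¹ * α (g * x)) = (α (g * y))⁻¹ * α (g * x) := by
        group
      have e3 : (g * x)⁻¹ * (g * y) = x⁻¹ * y := by group
      have e4 : (g * y)⁻¹ * (g * x) = y⁻¹ * x := by group
      rw [e3, e4] at this
      rw [e1, e2, this]
    · intro x c
      rw [hα', hβ']
      have := hT (g * x) (g • c)
      have e1 : (g * x)⁻¹ • g • c = x⁻¹ • c := by
        rw [smul_smul]; congr 1; group
      have e2 : ((α g)⁻¹ * α (g * x))⁻¹ • (α g)⁻¹ • β (g • c) = (α (g * x))⁻¹ • β (g • c) := by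
        rw [smul_smul]; congr 1; group
      rw [e1] at this
      rw [e2, this]
    · rw [hα']; simp
  refine ⟨?_, ?_, ?_⟩
  · intro g
    have := (key g).1
    rwa [smul_b, smul_b] at this
  · intro g u hu
    rcases (key g).2.1 u hu with h | h
    · left; exact inv_mul_eq_iff_eq_mul.1 h
    · right; exact inv_mul_eq_iff_eq_mul.1 h
  · intro g u hu hg
    exact inv_mul_eq_iff_eq_mul.1 ((key g).2.2 u hu hg)

end H34.VM
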