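import Pool.Agent.H34.VM.Base

set_option autoImplicit false

namespace H34.VM

open Set

lemma goodSet_empty {G : Type} [Group G] (L : Subgroup G) (F : ℕ) : GoodSet L F (∅ : Set G) :=
  ⟨by simp, by simp, by simp, by simp, by simp⟩

theorem t_sigma (hI : S_insert) : S_sigma := by
  intro G _ _ L A₀ A k hA₀ hA hK hgen hk hbig
  have hbig' : 5000 * ((k + 1) + 1) ^ 2 * Nat.card L ≤ Nat.card G := hbig
  obtain ⟨s₀, hs₀A, hs₀, hs₀g⟩ := hI G L ∅ A₀ (k + 1) (goodSet_empty L _) (by simp) hA₀ hbig'
  refine ⟨s₀, hs₀A, ?_⟩
  -- insert `j` elements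
  have key : ∀ j : ℕ, j ≤ k → ∃ S : Set G, s₀ ∈ S ∧ S ⊆ insert s₀ A ∧
      GoodSet L (100 * (k + 1 + 1)) S ∧ S.ncard = j + 1 ∧
      (A ⊆ (Subgroup.closure S : Subgroup G) ∨ 2 ^ j ≤ Nat.card (Subgroup.closure S)) := by
    intro j
    induction j with
    | zero =>
      intro _
      refine ⟨insert s₀ ∅, by simp, by simp, hs₀g, by simp, Or.inr ?_⟩
      simp only [pow_zero]
      exact Nat.card_pos
    | succ j ih =>
      intro hj
      obtain ⟨S, h0, hSA, hS, hcard, hcl⟩ := ih (by omega)
      by_cases hAS : A ⊆ (Subgroup.closure S : Subgroup G)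
      · obtain ⟨x, hxA, hxS, hx⟩ := hI G L S A (k + 1) hS (by omega) hA hbig'
        refine ⟨insert x S, Or.inr h0, ?_, hx, ?_, Or.inl ?_⟩
        · exact insert_subset (Or.inr hxA) hSA
        · rw [ncard_insert_of_notMem hxS, hcard]
        · exact hAS.trans (Subgroup.closure_mono (subset_insert _ _))
      · have hK' := (hK (Subgroup.closure S)).resolve_left hAS
        obtain ⟨x, ⟨hxA, hxK⟩, hxS, hx⟩ := hI G L S (A \ (Subgroup.closure S : Subgroup G)) (k + 1) hS
          (by omega) hK' hbig'
        refine ⟨insert x S, Or.inr h0, ?_, hx, ?_, Or.inr ?_⟩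
        · exact insert_subset (Or.inr hxA) hSA
        · rw [ncard_insert_of_notMem hxS, hcard]
        · have hle : Subgroup.closure S ≤ Subgroup.closure (insert x S) :=
            Subgroup.closure_mono (subset_insert _ _)
          have hdvd : Nat.card (Subgroup.closure S) ∣ Nat.card (Subgroup.closure (insert x S)) :=
            Subgroup.card_dvd_of_le hle
          obtain ⟨c, hc⟩ := hdvd
          have hc0 : c ≠ 0 := by
            rintro rfl
            rw [mul_zero] at hc
            exact Nat.card_pos.ne' hc
          have hc1 : c ≠ 1 := by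
            rintro rfl
            rw [mul_one] at hc
            have : Subgroup.closure S = Subgroup.closure (insert x S) :=
              Subgroup.eq_of_le_of_card_ge hle hc.le
            apply hxK
            rw [this]
            exact Subgroup.subset_closure (mem_insert _ _)
          have h2 := hcl.resolve_left hAS
          rw [hc, pow_succ]
          exact Nat.mul_le_mul h2 (by omega)
  obtain ⟨S, h0, hSA, hS, hcard, hcl⟩ := key k le_rfl
  refine ⟨S, h0, hSA, ?_, hS, hcard⟩
  have hcl' : A ⊆ (Subgroup.closure S : Subgroup G) := by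
    rcases hcl with h | h
    · exact h
    · exfalso
      have := Subgroup.card_le_card_group (Subgroup.closure S)
      omega
  rw [eq_top_iff, ← hgen s₀ hs₀A, Subgroup.closure_le]
  exact insert_subset (Subgroup.subset_closure h0) hcl'

end H34.VM
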