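import Pool.Agent.H34.VM.Base

set_option autoImplicit false

namespace H34.VM

open Set

lemma many_steps (hT1 : S_step) {G : Type} [Group G] [Finite G] (L : Subgroup G) (S : Set G)
    (k : ℕ) (s : G) (hq : (Nat.card L).Prime) (hG : GoodSet L (100 * (k + 1)) S)
    (hk : S.ncard ≤ k) (hs : s ∈ S) (hbig : 5000 * (k + 1) ^ 3 ≤ Nat.card (G ⧸ L))
    (T : Set (G ⧸ L)) (o : G ⧸ L → G) (hC : Config L S T o) :
    ∀ r : ℕ, T.ncard + 2 * r ≤ 4 * (k + 1) ^ 2 →
      ∃ (T' : Set (G ⧸ L)) (o' : G ⧸ L → G), Config L S T' o' ∧ T'.ncard ≤ T.ncard + 2 * r ∧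
        (∀ u ∈ S, u ≠ s → lab L T' u = lab L T u) ∧ lab L T' s = lab L T s + r * wt L s := by
  intro r
  induction r with
  | zero => intro _; exact ⟨T, o, hC, by omega, fun _ _ _ => rfl, by simp⟩
  | succ r ih =>
    intro hr
    obtain ⟨T', o', hC', hc', hu', hs'⟩ := ih (by omega)
    obtain ⟨T'', o'', hC'', hc'', hu'', hs''⟩ := hT1 G L S k T' o' s hq hG hk hs hC' (by omega) hbig
    refine ⟨T'', o'', hC'', by omega, ?_, ?_⟩
    · intro u hu hne
      rw [hu'' u hu hne, hu' u hu hne]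
    · rw [hs'', hs']; ring

theorem t_T (hT0 : S_star) (hT1 : S_step) : S_T := by
  classical
  intro G _ _ L S k hq hG hk hk1 hsq hbig
  obtain ⟨T₀, o₀, hC₀, hT₀, hl₀⟩ := hT0 G L S _ hG hsq
  -- an enumeration
  have hcard : Nat.card S = k := by rw [Nat.card_coe_set_eq, hk]
  let e : S ≃ Fin k := Finite.equivFinOfCardEq hcard
  have key : ∀ j : ℕ, j ≤ k → ∃ (T : Set (G ⧸ L)) (o : G ⧸ L → G), Config L S T o ∧
      T.ncard ≤ k + 1 + j * (4 * k) ∧ ∀ u : S, lab L T u =
        wt L (u : G) * (1 + if (e u : ℕ) < j then k - 1 + (e u : ℕ) else 0) := by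
    intro j
    induction j with
    | zero =>
      intro _
      refine ⟨T₀, o₀, hC₀, by omega, ?_⟩
      intro u
      rw [hl₀ u u.2]; simp
    | succ j ih =>
      intro hj
      obtain ⟨T, o, hC, hc, hl⟩ := ih (by omega)
      set s : S := e.symm ⟨j, by omega⟩ with hs
      have hes : (e s : ℕ) = j := by simp [hs]
      have hjk : j * (4 * k) + 2 * (k - 1 + j) ≤ (j + 1) * (4 * k) := by
        have : (j + 1) * (4 * k) = j * (4 * k) + 4 * k := by ring
        omega
      have hkk : (j + 1) * (4 * k) ≤ k * (4 * k) := Nat.mul_le_mul_right _ hj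
      have hk2 : k + 1 + k * (4 * k) ≤ 4 * (k + 1) ^ 2 := by nlinarith
      obtain ⟨T', o', hC', hc', hu', hs'⟩ := many_steps hT1 L S k s hq hG hk.le s.2 hbig T o hC
        (k - 1 + j) (by omega)
      refine ⟨T', o', hC', by omega, ?_⟩
      intro u
      by_cases hus : u = s
      · rw [hus, hs', hl s, hes]
        simp only [lt_irrefl, if_false, Nat.lt_succ_self, if_true]
        ring
      · have hne : (u : G) ≠ s := fun h => hus (Subtype.ext h)
        rw [hu' u u.2 hne, hl u]
        have hne2 : (e u : ℕ) ≠ j := by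
          intro h
          apply hus
          apply e.injective
          apply Fin.ext
          rw [h, hes]
        congr 2
        by_cases h1 : (e u : ℕ) < j
        · rw [if_pos h1, if_pos (by omega)]
        · rw [if_neg h1, if_neg (by omega)]
  obtain ⟨T, o, hC, hc, hl⟩ := key k le_rfl
  refine ⟨T, o, hC, ?_, ?_⟩
  · have : k + 1 + k * (4 * k) ≤ 4 * (k + 1) ^ 2 := by nlinarith
    omega
  · intro u hu w hw huw
    have h1 := hl ⟨u, hu⟩
    have h2 := hl ⟨w, hw⟩
    have hi := (e ⟨u, hu⟩).2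
    have hi' := (e ⟨w, hw⟩).2
    rw [if_pos hi] at h1
    rw [if_pos hi'] at h2
    simp only at h1 h2
    rw [huw, h2] at h1
    have hwt : ∀ g : G, wt L g = 1 ∨ wt L g = 2 := by
      intro g
      unfold wt
      split_ifs <;> simp
    have h3 : (e ⟨u, hu⟩ : ℕ) = (e ⟨w, hw⟩ : ℕ) := by
      rcases hwt u with a | a <;> rcases hwt w with c | c <;> rw [a, c] at h1 <;> omega
    have h4 := e.injective (Fin.ext h3)
    exact congrArg Subtype.val h4

end H34.VM
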