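import Pool.Agent.H34.VM.R

set_option autoImplicit false

namespace H34.VM

open Set

theorem t_star : S_star := by
  classical
  intro G _ _ L S F hG hsq
  -- basic facts
  have hinj : ∀ u ∈ S, ∀ w ∈ S, w * u⁻¹ ∈ L → w = u := by
    intro u hu w hw h
    by_contra hne
    exact (hG.pair w hw u hu hne).2.1 h
  have hprod : ∀ u ∈ S, ∀ w ∈ S, w * u ∈ L → w = u := by
    intro u hu w hw h
    by_contra hne
    exact (hG.pair w hw u hu hne).1 h
  have eqb : ∀ g h : G, g • b L = h • b L ↔ h⁻¹ * g ∈ L := by
    intro g h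
    rw [← smul_b_eq_iff, mul_smul, inv_smul_eq_iff]
  set T : Set (G ⧸ L) := insert (b L) ((fun u : G => u⁻¹ • b L) '' S) with hT
  have memT : ∀ t, t ∈ T ↔ t = b L ∨ ∃ u ∈ S, u⁻¹ • b L = t := by
    intro t
    simp [hT, mem_insert_iff]
  let o : G ⧸ L → G := fun t => if h : ∃ u ∈ S, u⁻¹ • b L = t then h.choose else 1
  have ho : ∀ u ∈ S, o (u⁻¹ • b L) = u := by
    intro u hu
    have h : ∃ w ∈ S, w⁻¹ • b L = u⁻¹ • b L := ⟨u, hu, rfl⟩
    have h1 : o (u⁻¹ • b L) = h.choose := dif_pos h
    obtain ⟨h2, h3⟩ := h.choose_spec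
    rw [h1]
    rw [eqb, inv_inv] at h3
    exact (hinj _ h2 u hu h3).symm
  refine ⟨T, o, ⟨?_, ?_, ?_, ?_, ?_⟩, ?_, ?_⟩
  · rw [memT]; exact Or.inl rfl
  · intro u hu; rw [memT]; exact Or.inr ⟨u, hu, rfl⟩
  · intro u hu t ht hut hne
    rw [memT] at hut ht
    rcases hut with hut | ⟨w, hw, hut⟩
    · exact absurd hut hne
    · rw [← hut, ho w hw]
      rcases ht with rfl | ⟨x, hx, rfl⟩
      · rw [eqb] at hut
        have h2 := L.inv_mem hut
        have e : (u⁻¹ * w⁻¹)⁻¹ = w * u := by group
        rw [e] at h2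
        exact hprod u hu w hw h2
      · exfalso
        rw [smul_smul, eqb] at hut
        have h2 := L.inv_mem hut
        have e : ((u * x⁻¹)⁻¹ * w⁻¹)⁻¹ = w * u * x⁻¹ := by group
        rw [e] at h2
        exact hG.trip w hw u hu x hx h2
  · intro u hu t ht hut hne
    rw [memT] at hut ht
    rcases ht with ht | ⟨x, hx, rfl⟩
    · exact absurd ht hne
    · rw [ho x hx]
      rcases hut with hut | ⟨w, hw, hut⟩
      · rw [smul_smul, smul_b_eq_iff] at hut
        exact (hinj x hx u hu hut).symm
      · exfalso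
        rw [smul_smul, eqb] at hut
        have h2 := L.inv_mem hut
        have e : ((u * x⁻¹)⁻¹ * w⁻¹)⁻¹ = w * u * x⁻¹ := by group
        rw [e] at h2
        exact hG.trip w hw u hu x hx h2
  · intro u hu hut
    rw [memT] at hut
    rcases hut with hut | ⟨w, hw, hut⟩
    · rw [smul_b_eq_iff] at hut
      exact absurd hut (hG.notL u hu)
    · rw [← hut]
      rw [eqb] at hut
      have h2 := L.inv_mem hut
      have e : (u⁻¹ * w⁻¹)⁻¹ = w * u := by group
      rw [e] at h2
      rw [hprod u hu w hw h2]
  · refine (ncard_insert_le _ _).trans ?_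
    have := ncard_image_le (f := fun u : G => u⁻¹ • b L) (toFinite S)
    omega
  · intro u hu
    unfold lab wt
    by_cases h : ∀ c : G ⧸ L, (u ^ 2) • c = c
    · rw [if_pos h]
      have hset : {t : G ⧸ L | t ∈ T ∧ u⁻¹ • t ∈ T} = {b L, u⁻¹ • b L} := by
        ext t
        simp only [mem_insert_iff, mem_singleton_iff]
        constructor
        · rintro ⟨h1, h2⟩
          rw [memT] at h1 h2
          rcases h1 with rfl | ⟨w, hw, rfl⟩
          · left; rfl
          · right
            rcases h2 with h2 | ⟨x, hx, h2⟩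
            · rw [smul_smul, smul_b_eq_iff] at h2
              have h3 := L.inv_mem h2
              have e : (u⁻¹ * w⁻¹)⁻¹ = w * u := by group
              rw [e] at h3
              rw [hprod u hu w hw h3]
            · exfalso
              rw [smul_smul, eqb] at h2
              have e : (u⁻¹ * w⁻¹)⁻¹ * x⁻¹ = w * u * x⁻¹ := by group
              rw [e] at h2
              exact hG.trip w hw u hu x hx h2
        · rintro (rfl | rfl)
          · exact ⟨(memT _).2 (Or.inl rfl), (memT _).2 (Or.inr ⟨u, hu, rfl⟩)⟩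
          · refine ⟨(memT _).2 (Or.inr ⟨u, hu, rfl⟩), (memT _).2 (Or.inl ?_)⟩
            have h3 := h (u⁻¹ • u⁻¹ • b L)
            rw [pow_two] at h3
            simpa [smul_smul, mul_assoc] using h3.symm
      rw [hset, ncard_pair]
      intro h3
      have h4 := h3.symm
      rw [smul_b_eq_iff] at h4
      exact hG.notL u hu (by simpa using L.inv_mem h4)
    · rw [if_neg h]
      have hset : {t : G ⧸ L | t ∈ T ∧ u⁻¹ • t ∈ T} = {b L} := by
        ext t
        simp only [mem_singleton_iff]
        constructor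
        · rintro ⟨h1, h2⟩
          rw [memT] at h1 h2
          rcases h1 with rfl | ⟨w, hw, rfl⟩
          · rfl
          · exfalso
            rcases h2 with h2 | ⟨x, hx, h2⟩
            · rw [smul_smul, smul_b_eq_iff] at h2
              have h3 := L.inv_mem h2
              have e : (u⁻¹ * w⁻¹)⁻¹ = w * u := by group
              rw [e] at h3
              have h4 := hprod u hu w hw h3
              rw [h4, ← pow_two] at h3
              exact h (hsq u hu h3)
            · rw [smul_smul, eqb] at h2
              have e : (u⁻¹ * w⁻¹)⁻¹ * x⁻¹ = w * u * x⁻¹ := by group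
              rw [e] at h2
              exact hG.trip w hw u hu x hx h2
        · rintro rfl
          exact ⟨(memT _).2 (Or.inl rfl), (memT _).2 (Or.inr ⟨u, hu, rfl⟩)⟩
      rw [hset, ncard_singleton]

end H34.VM
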