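import Pool.Agent.H34.VM.Base

set_option autoImplicit false

namespace H34.VM

open Set

/-- `G` is represented by a graph with `N` vertices -/
def Rep (G : Type) [Group G] (N : ℕ) : Prop := ∃ X : SimpleGraph (Fin N), Nonempty ((X ≃g X) ≃* G)

lemma rep_card {G V : Type} [Group G] [Finite V] (X : SimpleGraph V)
    (h : Nonempty ((X ≃g X) ≃* G)) : Rep G (Nat.card V) := by
  obtain ⟨m⟩ := h
  let e : V ≃ Fin (Nat.card V) := Finite.equivFin V
  let Y : SimpleGraph (Fin (Nat.card V)) := X.comap e.symm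
  have hY : ∀ a c, Y.Adj (e a) (e c) ↔ X.Adj a c := by
    intro a c
    simp [Y, SimpleGraph.comap_adj]
  let φ : X ≃g Y := { toEquiv := e, map_rel_iff' := by intro a c; exact hY a c }
  let c : (Y ≃g Y) ≃* (X ≃g X) :=
    { toFun := fun f => (φ.trans f).trans φ.symm
      invFun := fun f => (φ.symm.trans f).trans φ
      left_inv := by
        intro f
        ext a
        simp
      right_inv := by
        intro f
        ext a
        simp
      map_mul' := by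
        intro f g
        ext a
        simp [RelIso.mul_apply] }
  exact ⟨Y, ⟨c.trans m⟩⟩

lemma pow_ineq : ∀ l : ℕ, 61 ≤ l → 25000000 * (l + 3) ^ 6 ≤ 2 ^ l := by
  intro l hl
  induction l, hl using Nat.le_induction with
  | base => norm_num
  | succ l hl ih =>
    have h1 : (l + 1 + 3) * 64 ≤ 65 * (l + 3) := by omega
    have h2 := Nat.pow_le_pow_left h1 6
    rw [mul_pow, mul_pow] at h2
    have h3 : (l + 1 + 3) ^ 6 ≤ 2 * (l + 3) ^ 6 := by
      have h4 : (65 : ℕ) ^ 6 ≤ 2 * 64 ^ 6 := by norm_num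
      have h5 : (l + 1 + 3) ^ 6 * 64 ^ 6 ≤ (2 * (l + 3) ^ 6) * 64 ^ 6 := by
        calc (l + 1 + 3) ^ 6 * 64 ^ 6 ≤ 65 ^ 6 * (l + 3) ^ 6 := h2
          _ ≤ (2 * 64 ^ 6) * (l + 3) ^ 6 := Nat.mul_le_mul_right _ h4
          _ = _ := by ring
      exact Nat.le_of_mul_le_mul_right h5 (by norm_num)
    calc 25000000 * (l + 1 + 3) ^ 6 ≤ 25000000 * (2 * (l + 3) ^ 6) := Nat.mul_le_mul_left _ h3
      _ = 2 * (25000000 * (l + 3) ^ 6) := by ring
      _ ≤ 2 * 2 ^ l := Nat.mul_le_mul_left _ ih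
      _ = 2 ^ (l + 1) := by ring

lemma numeric (n : ℕ) (hn : 2 ^ 61 < n) :
    (5000 * (Nat.log 2 n + 1 + 2) ^ 3) ^ 2 ≤ n := by
  have h0 : n ≠ 0 := by omega
  have h1 : 2 ^ Nat.log 2 n ≤ n := Nat.pow_log_le_self 2 h0
  have h2 : 61 ≤ Nat.log 2 n := by
    apply Nat.le_log_of_pow_le (by norm_num) hn.le
  have h3 := pow_ineq _ h2
  calc (5000 * (Nat.log 2 n + 1 + 2) ^ 3) ^ 2 = 25000000 * (Nat.log 2 n + 3) ^ 6 := by ring
    _ ≤ _ := h3
    _ ≤ n := h1

lemma mul_le_of_sq {q X n : ℕ} (h1 : q ^ 2 ≤ n) (h2 : X ^ 2 ≤ n) : X * q ≤ n := by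
  have h3 : (X * q) ^ 2 ≤ n ^ 2 := by
    rw [mul_pow, pow_two n]
    exact Nat.mul_le_mul h2 h1
  exact (Nat.pow_le_pow_iff_left (by norm_num)).1 h3

theorem one_explicit (hG2 : S_graph2) (hSG : S_sigma) (hT : S_T) (G : Type) [Group G] [Finite G]
    (hn : 2 ^ 61 < Nat.card G) (hG : AltOne G) : ∃ N < 2 * Nat.card G, Rep G N := by
  obtain ⟨L, hq, hq2, A, hgood, hgen, hA, hK⟩ := hG
  set k := Nat.log 2 (Nat.card G) + 1 with hk
  have hnum := numeric _ hn
  rw [← hk] at hnum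
  have hXq : 5000 * (k + 2) ^ 3 * Nat.card L ≤ Nat.card G := mul_le_of_sq hq2 hnum
  have hcL : Nat.card (G ⧸ L) * Nat.card L = Nat.card G :=
    (Subgroup.card_eq_card_quotient_mul_card_subgroup L).symm
  have hX : 5000 * (k + 2) ^ 3 ≤ Nat.card (G ⧸ L) := by
    rw [← hcL] at hXq
    exact Nat.le_of_mul_le_mul_right hXq hq.pos
  have hbig : 5000 * (k + 2) ^ 2 * Nat.card L ≤ Nat.card G := by
    refine le_trans ?_ hXq
    apply Nat.mul_le_mul_right
    apply Nat.mul_le_mul_left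
    exact Nat.pow_le_pow_right (by omega) (by norm_num)
  obtain ⟨s₀, hs₀, S, hs₀S, hSA, hSgen, hS, hScard⟩ := hSG G L A A k hA hA hK
    (fun a _ => by rw [eq_top_iff, ← hgen]; exact Subgroup.closure_mono (subset_insert _ _))
    (Nat.lt_pow_succ_log_self (by norm_num) _) hbig
  have hSA' : S ⊆ A := hSA.trans (insert_subset hs₀ le_rfl)
  have hS' : GoodSet L (100 * ((k + 1) + 1)) S := hS
  obtain ⟨T, o, hC, hTc, hinj⟩ := hT G L S (k + 1) hq hS' hScard (by omega) (by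
    intro u hu h
    rcases hgood u (hSA' hu) with h2 | h2
    · intro c; rw [h2, one_smul]
    · exact absurd h h2) hX
  have h1S : (1 : G) ∉ S := fun h => hS.notL 1 h L.one_mem
  have hl61 : 61 ≤ Nat.log 2 (Nat.card G) := Nat.le_log_of_pow_le (by norm_num) hn.le
  obtain ⟨X, hX'⟩ := hG2 G L S T o hC h1S (by rw [hScard]; omega) hinj
    (fun u hu => hgood u (hSA' hu)) hSgen (by
      rw [hScard]
      have h5 : 4 * (k + 1 + 1) ^ 2 ≤ 4 * (k + 2) ^ 3 :=
        Nat.mul_le_mul_left _ (Nat.pow_le_pow_right (by omega) (by norm_num))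
      have h6 : k + 2 ≤ (k + 2) ^ 3 := by
        calc k + 2 = (k + 2) ^ 1 := (pow_one _).symm
          _ ≤ _ := Nat.pow_le_pow_right (by omega) (by norm_num)
      omega)
  have h7 := rep_card X hX'
  rw [Nat.card_sum] at h7
  have h8 : Nat.card (G ⧸ L) * 2 ≤ Nat.card G := by
    rw [← hcL]; exact Nat.mul_le_mul_left _ hq.two_le
  have h9 : 0 < Nat.card G := Nat.card_pos
  exact ⟨_, by omega, h7⟩

lemma v_lt {G : Type} [Group G] {N : ℕ} (h : ∃ n < N, Rep G n) : v G < N := by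
  obtain ⟨n, hn, h⟩ := h
  exact lt_of_le_of_lt (Nat.sInf_le h) hn

theorem t_one (hG2 : S_graph2) (hSG : S_sigma) (hT : S_T) : S_one :=
  ⟨2 ^ 61, fun G _ _ hn hG => v_lt (one_explicit hG2 hSG hT G hn hG)⟩

end H34.VM
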