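import Pool.Agent.H34.VM.V1

set_option autoImplicit false

namespace H34.VM

open Set

lemma mem_zp {G : Type} [Group G] {z x : G} (hz : z ^ 2 = 1) :
    x ∈ Subgroup.zpowers z ↔ x = 1 ∨ x = z := by
  constructor
  · rintro ⟨k, rfl⟩
    rcases Int.even_or_odd' k with ⟨c, rfl | rfl⟩
    · left
      show z ^ (2 * c) = 1
      rw [zpow_mul]
      have : z ^ (2 : ℤ) = 1 := by exact_mod_cast hz
      rw [this, one_zpow]
    · right
      show z ^ (2 * c + 1) = z
      rw [zpow_add, zpow_mul]
      have : z ^ (2 : ℤ) = 1 := by exact_mod_cast hz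
      rw [this, one_zpow, one_mul, zpow_one]
  · rintro (rfl | rfl)
    · exact Subgroup.one_mem _
    · exact Subgroup.mem_zpowers _

lemma card_coe {G : Type} [Group G] (K : Subgroup G) : (K : Set G).ncard = Nat.card K := by
  rw [← Nat.card_coe_set_eq]; rfl

theorem two_explicit (hG3 : S_graph3) (hSG : S_sigma) (hT : S_T) (G : Type) [Group G] [Finite G]
    (hn : 2 ^ 61 < Nat.card G) (hG : AltTwo G) : ∃ N < 2 * Nat.card G, Rep G N := by
  obtain ⟨z, K, M, ⟨hz1, hz2, hzc, hzu, hKi, hKz, hKc⟩, hMK, hMp, hM2⟩ := hG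
  set k := Nat.log 2 (Nat.card G) + 1 with hk
  have hnum := numeric _ hn
  rw [← hk] at hnum
  set L := Subgroup.zpowers z with hL
  have hcardL : Nat.card L = 2 := by
    rw [hL, Nat.card_zpowers]
    exact orderOf_eq_prime hz2 hz1
  have hcK : Nat.card K * 2 = Nat.card G := by
    rw [← hKi]; exact K.card_mul_index
  have hcL : Nat.card (G ⧸ L) * 2 = Nat.card G := by
    rw [← hcardL]; exact (Subgroup.card_eq_card_quotient_mul_card_subgroup L).symm
  have hzK : z ∈ K := by
    by_contra h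
    have := hKz z h
    rw [hz2] at this
    exact hz1 this.symm
  have hn61 : 2 ^ 61 < Nat.card G := hn
  have hl61 : 61 ≤ Nat.log 2 (Nat.card G) := Nat.le_log_of_pow_le (by norm_num) hn.le
  -- square roots of `z` in `K`
  set A : Set G := {g | g ∈ K ∧ g ^ 2 ≠ z} with hA
  have hsq2 : {g : G | g ∈ K ∧ g ^ 2 = z}.ncard ≤ 2 := by
    by_cases hne : {g : G | g ∈ K ∧ g ^ 2 = z}.Nonempty
    · obtain ⟨g₀, hg₀K, hg₀⟩ := hne
      have hsub : {g : G | g ∈ K ∧ g ^ 2 = z} ⊆ {g₀, z * g₀} := by
        rintro g ⟨hgK, hg⟩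
        have h1 : (g * g₀⁻¹) ^ 2 = 1 := by
          have hc : Commute g g₀⁻¹ := (show Commute g g₀ from hKc g hgK g₀ hg₀K).inv_right
          rw [hc.mul_pow, inv_pow, hg, hg₀, mul_inv_cancel]
        by_cases h2 : g * g₀⁻¹ = 1
        · left; exact mul_inv_eq_one.1 h2
        · right
          show g = z * g₀
          rw [← hzu _ h2 h1]; group
      refine (ncard_le_ncard hsub (toFinite _)).trans ((ncard_insert_le _ _).trans ?_)
      rw [ncard_singleton]
    · rw [not_nonempty_iff_eq_empty.1 hne, ncard_empty]; omega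
  have hAK' : ∀ B : Set G, (K : Set G) ⊆ A ∪ B ∪ {g : G | g ∈ K ∧ g ^ 2 = z} := by
    intro B g hg
    by_cases h : g ^ 2 = z
    · right; exact ⟨hg, h⟩
    · left; left; exact ⟨hg, h⟩
  have hAcard : Nat.card K ≤ A.ncard + 2 := by
    have h1 := ncard_le_ncard (hAK' ∅) (toFinite _)
    rw [union_empty] at h1
    have h2 := ncard_union_le A {g : G | g ∈ K ∧ g ^ 2 = z}
    rw [card_coe] at h1
    omega
  have hAK : ∀ K' : Subgroup G, A ⊆ K' ∨ Nat.card G ≤ 12 * (A \ K').ncard := by
    intro K'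
    by_cases hAK' : A ⊆ K'
    · exact Or.inl hAK'
    · right
      obtain ⟨a, haA, haK'⟩ := not_subset.1 hAK'
      have hle : K ⊓ K' ≤ K := inf_le_left
      obtain ⟨c, hc⟩ := Subgroup.card_dvd_of_le hle
      have hc0 : c ≠ 0 := by
        rintro rfl
        rw [mul_zero] at hc
        exact Nat.card_pos.ne' hc
      have hc1 : c ≠ 1 := by
        rintro rfl
        rw [mul_one] at hc
        have : K ⊓ K' = K := Subgroup.eq_of_le_of_card_ge hle hc.le
        apply haK'
        have h2 : a ∈ K ⊓ K' := by rw [this]; exact haA.1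
        exact h2.2
      have h2 : Nat.card (K ⊓ K' : Subgroup G) * 2 ≤ Nat.card K := by
        rw [hc]; exact Nat.mul_le_mul_left _ (by omega)
      have hsub : (K : Set G) ⊆ ((A \ K') ∪ ((K ⊓ K' : Subgroup G) : Set G)) ∪
          {g : G | g ∈ K ∧ g ^ 2 = z} := by
        intro g hg
        by_cases h : g ^ 2 = z
        · right; exact ⟨hg, h⟩
        · left
          by_cases h3 : g ∈ K'
          · right; exact ⟨hg, h3⟩
          · left; exact ⟨⟨hg, h⟩, h3⟩
      have h3 := ncard_le_ncard hsub (toFinite _)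
      have h4 := ncard_union_le ((A \ K') ∪ ((K ⊓ K' : Subgroup G) : Set G))
        {g : G | g ∈ K ∧ g ^ 2 = z}
      have h5 := ncard_union_le (A \ K') ((K ⊓ K' : Subgroup G) : Set G)
      rw [card_coe] at h3 h5
      omega
  have hA₀card : Nat.card G ≤ 12 * {g : G | g ∉ K}.ncard := by
    have h1 := ncard_add_ncard_compl (K : Set G)
    have h2 : (K : Set G)ᶜ = {g : G | g ∉ K} := rfl
    rw [card_coe, h2] at h1
    omega
  have hgen : ∀ a ∈ {g : G | g ∉ K}, Subgroup.closure (insert a A) = ⊤ := by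
    intro a ha
    set P := Subgroup.closure (insert a A) with hP
    have hAP : A ⊆ (P : Set G) := (subset_insert _ _).trans Subgroup.subset_closure
    have haP : a ∈ P := Subgroup.subset_closure (mem_insert _ _)
    have hKP : K ≤ P := by
      have hle : K ⊓ P ≤ K := inf_le_left
      obtain ⟨c, hc⟩ := Subgroup.card_dvd_of_le hle
      have h1 : A.ncard ≤ Nat.card (K ⊓ P : Subgroup G) := by
        rw [← card_coe]
        exact ncard_le_ncard (fun g hg => ⟨hg.1, hAP hg⟩) (toFinite _)
      have hc1 : c = 1 := by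
        by_contra hc1
        have hc0 : c ≠ 0 := by
          rintro rfl
          rw [mul_zero] at hc
          exact Nat.card_pos.ne' hc
        have : Nat.card (K ⊓ P : Subgroup G) * 2 ≤ Nat.card K := by
          rw [hc]; exact Nat.mul_le_mul_left _ (by omega)
        omega
      rw [hc1, mul_one] at hc
      have : K ⊓ P = K := Subgroup.eq_of_le_of_card_ge hle hc.le
      exact inf_eq_left.1 this
    obtain ⟨c, hc⟩ := Subgroup.card_dvd_of_le hKP
    have hc0 : c ≠ 0 := by
      rintro rfl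
      rw [mul_zero] at hc
      exact Nat.card_pos.ne' hc
    have hc1 : c ≠ 1 := by
      rintro rfl
      rw [mul_one] at hc
      have : K = P := Subgroup.eq_of_le_of_card_ge hKP hc.le
      exact ha (this ▸ haP)
    apply Subgroup.eq_top_of_le_card
    rw [hc, ← hcK]
    exact Nat.mul_le_mul_left _ (by omega)
  have hbig3 : 5000 * (k + 2) ^ 3 * 2 ≤ Nat.card G := by
    have : 5000 * (k + 2) ^ 3 * 2 ≤ (5000 * (k + 2) ^ 3) ^ 2 := by
      rw [pow_two]
      apply Nat.mul_le_mul_left
      have : 1 ≤ (k + 2) ^ 3 := Nat.one_le_pow _ _ (by omega)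
      omega
    exact this.trans hnum
  have hbig : 5000 * (k + 2) ^ 2 * Nat.card L ≤ Nat.card G := by
    rw [hcardL]
    refine le_trans ?_ hbig3
    apply Nat.mul_le_mul_right
    apply Nat.mul_le_mul_left
    exact Nat.pow_le_pow_right (by omega) (by norm_num)
  obtain ⟨s₀, hs₀, S, hs₀S, hSA, hSgen, hS, hScard⟩ := hSG G L {g : G | g ∉ K} A k hA₀card
    (by omega) hAK hgen (Nat.lt_pow_succ_log_self (by norm_num) _) hbig
  have hS' : GoodSet L (100 * ((k + 1) + 1)) S := hS
  have hztriv : ∀ c : G ⧸ L, z • c = c := by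
    intro c
    induction c using QuotientGroup.induction_on with
    | H g =>
      show ((z * g : G) : G ⧸ L) = (g : G ⧸ L)
      rw [← hzc g, eq_comm, QuotientGroup.eq]
      simp [hL]
  obtain ⟨T, o, hC, hTc, hinj⟩ := hT G L S (k + 1) (by rw [hcardL]; exact Nat.prime_two) hS'
    hScard (by omega) (by
    intro u hu h c
    rcases (mem_zp hz2).1 h with h | h
    · rw [h, one_smul]
    · rw [h]; exact hztriv c) (by
      show 5000 * (k + 2) ^ 3 ≤ _
      omega)
  have h1S : (1 : G) ∉ S := fun h => hS.notL 1 h L.one_mem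
  have hzM : z ∉ M := by
    intro h
    have h1 : orderOf (⟨z, h⟩ : M) ∣ Nat.card M := orderOf_dvd_natCard _
    have h2 : orderOf (⟨z, h⟩ : M) = 2 := by
      rw [Subgroup.orderOf_mk]
      exact orderOf_eq_prime hz2 hz1
    rw [h2] at h1
    exact hM2 ((Nat.prime_dvd_prime_iff_eq Nat.prime_two hMp).1 h1).symm
  have hLM : L ⊓ M = ⊥ := by
    rw [eq_bot_iff]
    rintro x ⟨hx1, hx2⟩
    rcases (mem_zp hz2).1 hx1 with h | h
    · exact h
    · exfalso; rw [h] at hx2; exact hzM hx2
  have hM3 : 3 ≤ Nat.card M := by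
    have := hMp.two_le
    omega
  have hM4 : 4 * Nat.card M ≤ Nat.card G := by
    obtain ⟨c, hc⟩ := Subgroup.card_dvd_of_le hMK
    have h2K : 2 ∣ Nat.card K := by
      have h1 : orderOf (⟨z, hzK⟩ : K) ∣ Nat.card K := orderOf_dvd_natCard _
      have h2 : orderOf (⟨z, hzK⟩ : K) = 2 := by
        rw [Subgroup.orderOf_mk]
        exact orderOf_eq_prime hz2 hz1
      rwa [h2] at h1
    have hc0 : c ≠ 0 := by
      rintro rfl
      rw [mul_zero] at hc
      exact Nat.card_pos.ne' hc
    have hc1 : c ≠ 1 := by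
      rintro rfl
      rw [mul_one] at hc
      rw [hc] at h2K
      exact hM2 ((Nat.prime_dvd_prime_iff_eq Nat.prime_two hMp).1 h2K).symm
    have : Nat.card M * 2 ≤ Nat.card K := by
      rw [hc]; exact Nat.mul_le_mul_left _ (by omega)
    omega
  have hs₀K : s₀ ∉ K := hs₀
  have hLK : ∀ l ∈ L, l ∈ K := by
    intro l hl
    rcases (mem_zp hz2).1 hl with h | h
    · rw [h]; exact K.one_mem
    · rw [h]; exact hzK
  have hsize : 24 * (2 * S.ncard + T.ncard + 3) < Nat.card G := by
    rw [hScard]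
    have h5 : 4 * (k + 1 + 1) ^ 2 ≤ 4 * (k + 2) ^ 3 :=
      Nat.mul_le_mul_left _ (Nat.pow_le_pow_right (by omega) (by norm_num))
    have h6 : k + 2 ≤ (k + 2) ^ 3 := by
      calc k + 2 = (k + 2) ^ 1 := (pow_one _).symm
        _ ≤ _ := Nat.pow_le_pow_right (by omega) (by norm_num)
    omega
  obtain ⟨X, hX'⟩ := hG3 G L M S T o s₀ hC h1S (by rw [hScard]; omega) hinj hs₀S
    (fun u hu hne => by
      rcases hSA hu with h | h
      · exact absurd h hne
      · by_cases h2 : u ^ 2 = 1
        · exact Or.inl h2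
        · right
          intro h3
          rcases (mem_zp hz2).1 h3 with h4 | h4
          · exact h2 h4
          · exact h.2 h4) hSgen hcardL hLM hM3 hM4 (fun h => hs₀K (hMK h))
    (by rw [hKz s₀ hs₀K]; exact hzM)
    (fun l hl m hm h => hs₀K (by rw [← h]; exact K.mul_mem (hMK hm) (hLK l hl))) hsize
  have h7 := rep_card X hX'
  rw [Nat.card_sum, Nat.card_sum] at h7
  have hcM : Nat.card (G ⧸ M) * Nat.card M = Nat.card G :=
    (Subgroup.card_eq_card_quotient_mul_card_subgroup M).symm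
  have h8 : Nat.card (G ⧸ M) * 3 ≤ Nat.card G := by
    rw [← hcM]; exact Nat.mul_le_mul_left _ hM3
  have h9 : 0 < Nat.card G := Nat.card_pos
  exact ⟨_, by omega, h7⟩

theorem t_two (hG3 : S_graph3) (hSG : S_sigma) (hT : S_T) : S_two :=
  ⟨2 ^ 61, fun G _ _ hn hG => v_lt (two_explicit hG3 hSG hT G hn hG)⟩

end H34.VM
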